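import Pool.Agent.Helper81.IC.Good
import Pool.Agent.Helper81.RR.Final
import Pool.Agent.Helper65.BR.Final2

/-!
# Programs of random access machines with a cache: the simulation
-/

set_option autoImplicit false

namespace Pool.Agent.Helper81.IC

open Pool.Agent.Helper65.BR (SimA bm_all)
open Pool.Agent.Helper81.RP (Ins AcceptsAt)
open Pool.Agent.Helper92.RE

/-- **Programs** on the words `F w` and `y`, whose loads are served by a cache. -/
theorem sim_ram (c : ℕ) {D : LD} {F : List Bool → List Bool} (hD : D.Is F) {b : ℕ}
    (hlen : ∀ w, (F w).length ≤ b * (w.length + 1)) (hle : ∀ w, w.length ≤ (F w).length)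
    (P : List Ins) (C : ℝ) :
    SimA c (fun w y => ∃ t, AcceptsAt P (F w) y t) (fun w y => Within P C (F w) y) := by
  obtain ⟨C', hC'⟩ := within_mach hD hlen hle P C
  refine Pool.Agent.Helper81.RR.simA_imp (SimA.of_all (bm_all c (mach D P) C')) ?_ hC'
  rintro w y ⟨p, r, hr⟩
  exact sound hD P w y p r hr

end Pool.Agent.Helper81.IC
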