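import Pool.Agent.Helper81.RR.Defs
import Mathlib.Algebra.BigOperators.Group.Finset.Basic

/-!
# Programs of random access machines with a cache: definitions
-/

set_option autoImplicit false

namespace Pool.Agent.Helper81.IC

open Pool.Agent.Helper81.RP (Ins AcceptsAt conf)
open Pool.Agent.Helper81.RR (ld)

/-- The loads in the first `t` steps of the program are served by a cache of `k` lines, into which `x`
lines are brought altogether. The line number `j` consists of the registers `B j, …, B j + B - 1`, and
`S (u + 1)` is the set of the numbers of the lines which are in the cache during the step number `u`.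
The set is arbitrary (the replacement may depend on the future): it has at most `k` elements, at the
start the cache is empty, and a register is loaded only if its line is in the cache. -/
def Served (P : List Ins) (w y : List Bool) (B k x t : ℕ) : Prop :=
  ∃ S : ℕ → Finset ℕ, S 0 = ∅ ∧ (∀ u ≤ t, (S u).card ≤ k) ∧
    (∀ u < t, ∀ z, ld P (conf P w y u) = some z → z / B ∈ S (u + 1)) ∧
    ∑ u ∈ Finset.range t, (S (u + 1) \ S u).card ≤ x

/-- The program `P` accepts the word `w` of length `n`, with the second word `y`, at some time `t`, all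
numbers in the registers being less than `2 ^ s` up to this time and the numbers of the registers which
are loaded less than `2 ^ b`, and its loads are served by a cache of `k` lines of `B` registers, into
which `x` lines are brought, where `⌊log₂ n⌋ + 1 ≤ s` and, for `l = b + ⌊log₂ n⌋ + 1`,
`x ^ 2 B s l ^ 4 ≤ C (n + 1) ^ 3` and `k B s l ^ 4 ≤ C (n + 1)`. The time is not bounded, and the
program stores without the cache. -/
def Within (P : List Ins) (C : ℝ) (w y : List Bool) : Prop :=
  ∃ t s b B k x : ℕ, Nat.log 2 w.length + 1 ≤ s ∧ 0 < B ∧ 0 < k ∧ AcceptsAt P w y t ∧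
    (∀ u ≤ t, ∀ i, (conf P w y u).2 i < 2 ^ s) ∧
    (∀ u ≤ t, ∀ z, ld P (conf P w y u) = some z → z < 2 ^ b) ∧ Served P w y B k x t ∧
    (x : ℝ) ^ 2 * B * s * ((b : ℝ) + ((Nat.log 2 w.length : ℝ) + 1)) ^ 4 ≤
      C * ((w.length : ℝ) + 1) ^ 3 ∧
    (k : ℝ) * B * s * ((b : ℝ) + ((Nat.log 2 w.length : ℝ) + 1)) ^ 4 ≤ C * ((w.length : ℝ) + 1)

end Pool.Agent.Helper81.IC
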