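import Pool.Agent.Helper81.IC.Mach

/-!
# Programs of random access machines with a cache: the computation of the machine
-/

set_option autoImplicit false

namespace Pool.Agent.Helper81.IC

open Pool.Agent.Helper65.LinSpace Pool.Agent.Helper78.Mpc Pool.Agent.Helper28.Ram
open Pool.Agent.Helper65.OH (letW)
open Pool.Agent.Helper65.BR (BM)
open Pool.Agent.Helper81.RP (Ins lett step AcceptsAt conf conf_succ wd wf num_wd wd_num wf_eq
  linComp_wf length_wd ls_pair hd tl ls_hd ls_tl hd_eq tl_eq a0 a1 dst npc uu ls_a1 ls_dst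
  ls_npc selF selF_eq ls_selF isA accF accF_le accF_eq_one ls_accF bd pair_lt wd_one head_wd a0_le
  wd_cons_true)
open Pool.Agent.Helper92.RE
open Pool.Agent.Helper81.RR (getV setV getV_tup setV_tup tup tup_zero l3 l3_letW div_letW isL isSt
  uS mem mem_eq msg adN isSt_ne a1_le')

/-! ### The cache and the memory -/

/-- The lines in the slots of the cache, which is emptied if it is full. -/
def cl (P : List Ins) (x y : List Bool) (B κ : ℕ) : ℕ → List ℕ
  | 0 => []
  | k + 1 => if isL P[(conf P x y k).1]? = 0 then cl P x y B κ k else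
      if uu P (conf P x y k) / B ∈ cl P x y B κ k then cl P x y B κ k else
        if (cl P x y B κ k).length < κ then cl P x y B κ k ++ [uu P (conf P x y k) / B]
          else [uu P (conf P x y k) / B]

/-- All numbers in the registers are small up to the step `k`. -/
def Alive (P : List Ins) (x y : List Bool) (Q k : ℕ) : Prop :=
  ∀ u ≤ k, ∀ i, (conf P x y u).2 i + 1 < Q

theorem Alive.mono {P : List Ins} {x y : List Bool} {Q k k' : ℕ} (h : Alive P x y Q k)
    (hk : k' ≤ k) : Alive P x y Q k' := fun u hu => h u (hu.trans hk)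

theorem cl_length (P : List Ins) (x y : List Bool) (B : ℕ) {κ : ℕ} (hκ : 0 < κ) (k : ℕ) :
    (cl P x y B κ k).length ≤ κ := by
  induction k with
  | zero => exact Nat.zero_le _
  | succ k ih =>
    unfold cl
    split_ifs with h1 h2 h3
    · exact ih
    · exact ih
    · rw [List.length_append, List.length_singleton]
      exact h3
    · rw [List.length_singleton]
      exact hκ

theorem cl_lt {P : List Ins} {x y : List Bool} {Q k : ℕ} (B κ : ℕ) (h : Alive P x y Q k) :
    ∀ j ∈ cl P x y B κ k, j + 1 < Q := by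
  induction k with
  | zero =>
    intro j hj
    exact absurd hj (List.not_mem_nil)
  | succ k ih =>
    have ih' := ih (h.mono (Nat.le_succ k))
    have hu : uu P (conf P x y k) / B + 1 < Q :=
      lt_of_le_of_lt (Nat.add_le_add_right (Nat.div_le_self _ _) 1) (h k (Nat.le_succ k) _)
    intro j hj
    unfold cl at hj
    split_ifs at hj with h1 h2 h3
    · exact ih' j hj
    · exact ih' j hj
    · rw [List.mem_append, List.mem_singleton] at hj
      rcases hj with hj | hj
      · exact ih' j hj
      · rw [hj]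
        exact hu
    · rw [List.mem_singleton] at hj
      rw [hj]
      exact hu

/-- The value which is written by `store` is in a register after the step. -/
theorem vvL_alive {P : List Ins} {x y : List Bool} {k Q : ℕ} (h : Alive P x y Q (k + 1))
    (h0 : isSt P[(conf P x y k).1]? ≠ 0) : vvL P x y (conf P x y k) + 1 < Q := by
  have h1 := h (k + 1) le_rfl (uu P (conf P x y k))
  obtain ⟨a, b, hab⟩ := isSt_ne h0
  rw [conf_succ, step_eqL] at h1
  have e1 : dst P[(conf P x y k).1]? (uu P (conf P x y k)) = uu P (conf P x y k) := by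
    rw [hab]
    rfl
  have e2 : valL P[(conf P x y k).1]? (uu P (conf P x y k)) (vvL P x y (conf P x y k)) =
      vvL P x y (conf P x y k) := by
    rw [hab]
    rfl
  rw [e1, e2] at h1
  dsimp only at h1
  rwa [Function.update_self] at h1

theorem mem_alive {P : List Ins} {x y : List Bool} {k Q : ℕ} (h : Alive P x y Q k) (j : ℕ) :
    mem P x y k j < Q := by
  induction k with
  | zero =>
    have := h 0 le_rfl 0
    show 0 < Q
    omega
  | succ k ih =>
    show (if isSt P[(conf P x y k).1]? = 0 then mem P x y k else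
      Function.update (mem P x y k) (uu P (conf P x y k)) (vvL P x y (conf P x y k))) j < Q
    by_cases h0 : isSt P[(conf P x y k).1]? = 0
    · rw [if_pos h0]
      exact ih (h.mono (Nat.le_succ k))
    · rw [if_neg h0]
      by_cases hju : j = uu P (conf P x y k)
      · rw [hju, Function.update_self]
        have := vvL_alive h h0
        omega
      · rw [Function.update_of_ne hju]
        exact ih (h.mono (Nat.le_succ k))

/-! ### One step of the machine -/

/-- The blocks with the contents `M` of the registers. -/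
noncomputable def mw (π : ℕ) (M : ℕ → ℕ) (u : List Bool) : List Bool :=
  wd (cB π (num u / 2 - 1) M + 1)

section

variable (D : LD) (P : List Ins)

theorem addr_wd {S a : ℕ} (hS : 0 < S) (ha : Pool.Agent.Helper81.RR.addrF D P S = bitsN a) :
    (mach D P).addr (wd S) = a.bits := by
  have h : (mach D P).addr (wd S) = wd (bitsN a) := by
    refine wf_eq ?_ (by rw [bitsN_eq]; exact num_pos _)
    rw [num_wd hS, ha]
  rw [h, bitsN_eq, wd_num]

theorem blk_wd {S X : ℕ} (hS : 0 < S) (hX : 0 < X) (h : blkF P S = X) :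
    (mach D P).blk (wd S) = wd X := by
  refine wf_eq ?_ hX
  rw [num_wd hS, h]

theorem get_one {S : ℕ} (hS : 0 < S) (h : blkF P S = 1) (M : List Bool → List Bool) :
    (mach D P).get (wd S) M = [] := by
  unfold BM.get
  rw [blk_wd D P hS Nat.one_pos h, wd_one]
  rfl

theorem get_line {S j : ℕ} (hS : 0 < S) (h : blkF P S = 2 * (j + 1) + 1) (π : ℕ) (M : ℕ → ℕ) :
    (mach D P).get (wd S) (mw π M) = wd (cB π j M + 1) := by
  unfold BM.get
  rw [blk_wd D P hS (Nat.succ_pos _) h, wd_cons_true _ (Nat.succ_pos _),
    if_pos (show (true :: wd (j + 1)).head? = some true from rfl),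
    ← wd_cons_true _ (Nat.succ_pos _)]
  unfold mw
  rw [num_wd (Nat.succ_pos _), show (2 * (j + 1) + 1) / 2 - 1 = j by omega]

theorem step_mach {w y : List Bool} {S a S' π : ℕ} (hS : 0 < S)
    (ha : Pool.Agent.Helper81.RR.addrF D P S = bitsN a)
    {M M' : ℕ → ℕ} (hS' : 0 < S')
    (h1 : ∀ x, hd x = S → tl x = num (letW w[a]? ++ (letW y[a]? ++
      (mach D P).get (wd S) (mw π M))) → nextF D P x = S')
    (h2 : ∀ X, wrG S' X (cB π (X / 2 - 1) M + 1) = cB π (X / 2 - 1) M' + 1) :
    (mach D P).step w y (wd S, mw π M) = (wd S', mw π M') := by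
  have hnx : (mach D P).nx w y (wd S) ((mach D P).get (wd S) (mw π M)) = wd S' := by
    unfold BM.nx
    rw [addr_wd D P hS ha, Pool.Agent.Helper31.TMS.bval_bits]
    refine wf_eq (h1 _ ?_ ?_) hS'
    · rw [hd_eq, num_wd hS]
    · rw [tl_eq]
  unfold BM.step
  dsimp only
  rw [hnx]
  refine Prod.ext rfl ?_
  funext u
  show (mach D P).write (sd (wd S') ++ (sd u ++ mw π M u)) = mw π M' u
  refine wf_eq ?_ (Nat.succ_pos _)
  unfold writeF
  rw [hd_eq, tl_eq, hd_eq, tl_eq, num_wd hS']
  unfold mw
  rw [num_wd (Nat.succ_pos _)]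
  exact h2 _

theorem πO_sto {f : ℕ} (hf : f ≤ 1) (p n u π V : ℕ) : πO (sto f p n u (Nat.pair π V)) = π := by
  unfold πO
  rw [vO_sto hf, Nat.unpair_pair]

theorem mO_sto {f : ℕ} (hf : f ≤ 1) (p n u π m T : ℕ) :
    mO (sto f p n u (Nat.pair π (Nat.pair m T))) = m := by
  unfold mO
  rw [vO_sto hf, Nat.unpair_pair, Nat.unpair_pair]

theorem tO_sto {f : ℕ} (hf : f ≤ 1) (p n u π m T : ℕ) :
    tO (sto f p n u (Nat.pair π (Nat.pair m T))) = T := by
  unfold tO
  rw [vO_sto hf, Nat.unpair_pair, Nat.unpair_pair]

theorem pair_zero : Nat.pair 0 0 = 0 := rfl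

theorem mO_one : mO 1 = 0 := rfl

theorem cB_zero (π j : ℕ) : cB π j (fun _ => 0) = 0 := by
  unfold cB tab
  simp

theorem cT_zero (π : ℕ) : cT π [] (fun _ => 0) = 0 := by
  unfold cT tab
  refine Finset.sum_eq_zero fun i _ => ?_
  have : cd (bO π) [] (fun _ => 0) i = 0 := rfl
  rw [this, zero_mul]

/-- The computation of the length. -/
theorem stepA {π : ℕ} (hπ : okN π ≠ 0) (w y : List Bool) (n : ℕ) :
    (mach D P).step w y (wd (sto 0 0 n 0 (Nat.pair π 0)), mw π fun _ => 0) =
      (if n < w.length then wd (sto 0 0 (n + 1) 0 (Nat.pair π 0)) else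
        wd (sto (accF P 0) 1 n 0 (Nat.pair π 0)), mw π fun _ => 0) := by
  have h0 : (0 : ℕ) ≤ 1 := by omega
  have haddr : Pool.Agent.Helper81.RR.addrF D P (sto 0 0 n 0 (Nat.pair π 0)) = bitsN n := by
    unfold Pool.Agent.Helper81.RR.addrF
    rw [pO_sto h0, ifz_zero, nO_sto h0]
  have key := step_mach D P (w := w) (y := y) (π := π)
    (S' := if n < w.length then sto 0 0 (n + 1) 0 (Nat.pair π 0) else
      sto (accF P 0) 1 n 0 (Nat.pair π 0))
    (M := fun _ => 0) (M' := fun _ => 0) (sto_pos _ _ _ _ _) haddr
    (by split_ifs <;> exact sto_pos _ _ _ _ _) ?_ ?_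
  · rw [key]
    by_cases hn : n < w.length
    · rw [if_pos hn, if_pos hn]
    · rw [if_neg hn, if_neg hn]
  · intro x hx1 hx2
    unfold nextF
    rw [hx1, hx2, πO_sto h0, ifz_ne hπ, pO_sto h0, ifz_zero, l3_letW, nO_sto h0]
    by_cases hn : n < w.length
    · have h2 : lett w[n]? ≠ 0 := fun h => by
        rw [lett_none] at h
        omega
      rw [ifz_ne h2, if_pos hn]
    · rw [lett_none.2 (by omega), ifz_zero, if_neg hn]
  · intro X
    unfold wrG
    have h3 : mO (if n < w.length then sto 0 0 (n + 1) 0 (Nat.pair π 0) else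
        sto (accF P 0) 1 n 0 (Nat.pair π 0)) = 0 := by
      have e : (0 : ℕ) = Nat.pair 0 0 := rfl
      split_ifs
      · have h := mO_sto h0 0 (n + 1) 0 π 0 0
        rwa [← e] at h
      · have h := mO_sto (accF_le P 0) 1 n 0 π 0 0
        rwa [← e] at h
    rw [h3, ifz_zero]

/-- The machine stops in the state `[]`. -/
theorem nx_dead (w y v : List Bool) : (mach D P).nx w y (wd 1) v = wd 1 := by
  unfold BM.nx
  refine wf_eq ?_ Nat.one_pos
  unfold nextF
  rw [hd_eq, num_wd Nat.one_pos]
  have : okN (πO 1) = 0 := by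
    by_contra h
    have h1 := ((okN_iff _).1 h).1
    have h2 : qO (πO 1) = 0 := rfl
    rw [h2] at h1
    exact absurd h1 (by norm_num)
  rw [this, ifz_zero]

theorem dead_add {w y p : List Bool} {t : ℕ} (h : ((mach D P).conf w y p t).1 = wd 1) (j : ℕ) :
    ((mach D P).conf w y p (t + j)).1 = wd 1 := by
  induction j with
  | zero => exact h
  | succ j ih =>
    show (mach D P).nx w y ((mach D P).conf w y p (t + j)).1 _ = wd 1
    rw [ih]
    exact nx_dead D P w y _

end

/-! ### The computation -/

/-- The code of the state of the machine. -/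
def stI (P : List Ins) (x y : List Bool) (π n k : ℕ) : ℕ :=
  sto (accF P (conf P x y k).1) ((conf P x y k).1 + 1) n (tup (bd P + 1) (conf P x y k).2)
    (Nat.pair π (Nat.pair (msg P x y k) (cT π (cl P x y (bO π) (kO π) k) (mem P x y k))))

theorem mem_zero (P : List Ins) (x y : List Bool) : mem P x y 0 = fun _ => 0 := rfl

theorem stI_zero (P : List Ins) (x y : List Bool) (π n : ℕ) :
    stI P x y π n 0 = sto (accF P 0) 1 n 0 (Nat.pair π 0) := by
  have e1 : conf P x y 0 = (0, fun _ => 0) := rfl
  have e2 : msg P x y 0 = 0 := rfl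
  have e3 : cl P x y (bO π) (kO π) 0 = [] := rfl
  unfold stI
  rw [e1, e2, e3, mem_zero]
  dsimp only
  rw [tup_zero, cT_zero]
  rfl

section

variable (D : LD) (P : List Ins) (x y : List Bool) (π n k : ℕ)

theorem pO_stI : pO (stI P x y π n k) = (conf P x y k).1 + 1 := pO_sto (accF_le _ _) _ _ _ _

theorem nO_stI : nO (stI P x y π n k) = n := nO_sto (accF_le _ _) _ _ _ _

theorem uO_stI : uO (stI P x y π n k) = tup (bd P + 1) (conf P x y k).2 :=
  uO_sto (accF_le _ _) _ _ _ _

theorem πO_stI : πO (stI P x y π n k) = π := πO_sto (accF_le _ _) _ _ _ _ _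

theorem mO_stI : mO (stI P x y π n k) = msg P x y k := mO_sto (accF_le _ _) _ _ _ _ _ _

theorem tO_stI : tO (stI P x y π n k) = cT π (cl P x y (bO π) (kO π) k) (mem P x y k) :=
  tO_sto (accF_le _ _) _ _ _ _ _ _

theorem uS_stI : uS (bd P + 1) (stI P x y π n k) P[(conf P x y k).1]? = uu P (conf P x y k) := by
  unfold uS
  rw [uO_stI, getV_tup (Nat.lt_succ_of_le (a0_le P _))]
  rfl

theorem addrF_stI : Pool.Agent.Helper81.RR.addrF D P (stI P x y π n k) =
    bitsN (adN D P x y n k) := by
  unfold Pool.Agent.Helper81.RR.addrF adN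
  rw [pO_stI, ifz_ne (Nat.succ_ne_zero _), selF_eq, Nat.add_sub_cancel, uS_stI, nO_stI]

/-- The block which is read. -/
theorem blkF_stI {π : ℕ} (hπ : okN π ≠ 0) (hal : Alive P x y (qO π) k) :
    blkF P (stI P x y π n k) = if isL P[(conf P x y k).1]? ≠ 0 ∧
      uu P (conf P x y k) / bO π ∉ cl P x y (bO π) (kO π) k then
        2 * (uu P (conf P x y k) / bO π + 1) + 1 else 1 := by
  have hlen := cl_length P x y (bO π) (kO_pos hπ) k
  have hcl := cl_lt (bO π) (kO π) hal
  have hM := mem_alive hal
  unfold blkF blG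
  rw [pO_stI, ifz_ne (Nat.succ_ne_zero _), selF_eq, Nat.add_sub_cancel, uS_stI, πO_stI, tO_stI]
  by_cases h1 : isL P[(conf P x y k).1]? = 0
  · rw [h1, ifz_zero, if_neg fun h => h.1 rfl]
  · rw [ifz_ne h1]
    by_cases h2 : uu P (conf P x y k) / bO π ∈ cl P x y (bO π) (kO π) k
    · rw [if_neg fun h => h.2 h2, lt01_eq (slN_mem hπ hlen hcl hM h2).1, ifz_ne one_ne_zero]
    · rw [if_pos ⟨h1, h2⟩, lt01_zero (slN_not hπ hcl hM h2), ifz_zero]

end

/-- The value of the second register or of the letter. -/
theorem vS_stI {D : LD} {F : List Bool → List Bool} (hF : D.Is F) {π : ℕ} (hπ : okN π ≠ 0)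
    (P : List Ins) (w y : List Bool) (k : ℕ) (hal : Alive P (F w) y (qO π) k) {Z : ℕ}
    (hZ : Z = num (letW w[adN D P (F w) y w.length k]? ++
      (letW y[adN D P (F w) y w.length k]? ++
        (mach D P).get (wd (stI P (F w) y π w.length k)) (mw π (mem P (F w) y k))))) :
    vS D (bd P + 1) (stI P (F w) y π w.length k) Z P[(conf P (F w) y k).1]? =
      vvL P (F w) y (conf P (F w) y k) := by
  have e1 : l3 (Z % 4) = lett w[adN D P (F w) y w.length k]? := by
    rw [hZ, l3_letW]
  have e2 : l3 (Z / 4 % 4) = lett y[adN D P (F w) y w.length k]? := by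
    rw [hZ, div_letW, l3_letW]
  unfold vS vvL
  rw [uS_stI, nO_stI, uO_stI, πO_stI, tO_stI, e1, e2]
  by_cases h0 : inpL P[(conf P (F w) y k).1]? = 0
  · rw [h0, ifz_zero, ifz_zero]
    by_cases h1 : a1 P[(conf P (F w) y k).1]? (uu P (conf P (F w) y k)) < bd P + 1
    · rw [lt01_eq h1, ifz_ne one_ne_zero, getV_tup h1]
    · rw [lt01_zero h1, ifz_zero]
      obtain ⟨⟨a, b, hab⟩, hu⟩ := a1_le' (Nat.lt_of_succ_le (Nat.le_of_not_lt h1))
      rw [rdN_eq hπ (cl_length P (F w) y (bO π) (kO_pos hπ) k) (cl_lt (bO π) (kO π) hal)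
        (mem_alive hal), hu, mem_eq]
      · rw [hu] at h1
        omega
      · intro h2
        have h3 : blkF P (stI P (F w) y π w.length k) =
            2 * (uu P (conf P (F w) y k) / bO π + 1) + 1 := by
          rw [blkF_stI P (F w) y w.length k hπ hal, if_pos ⟨by rw [hab]; exact one_ne_zero, h2⟩]
        have hg := get_line D P (S := stI P (F w) y π w.length k) (sto_pos _ _ _ _ _) h3 π
          (mem P (F w) y k)
        rw [hZ, hg, show (16 : ℕ) = 4 * 4 by norm_num,
          ← Nat.div_div_eq_div_mul, div_letW, div_letW, num_wd (Nat.succ_pos _),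
          Nat.succ_sub_one]
  · rw [ifz_ne h0, ifz_ne h0]
    by_cases h1 : inpL P[(conf P (F w) y k).1]? - 1 = 0
    · have ha : adN D P (F w) y w.length k = adr1 D w.length (uu P (conf P (F w) y k)) := by
        unfold adN
        rw [ifz_ne h0, h1, ifz_zero]
      rw [h1, ifz_zero, ifz_zero, ha, lt_eq hF]
    · have ha : adN D P (F w) y w.length k = uu P (conf P (F w) y k) := by
        unfold adN
        rw [ifz_ne h0, ifz_ne h1]
      rw [ifz_ne h1, ifz_ne h1, ha]

/-- The new cache. -/
theorem tN_stI {D : LD} {F : List Bool → List Bool} {π : ℕ} (hπ : okN π ≠ 0)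
    (P : List Ins) (w y : List Bool) (k : ℕ) (hal : Alive P (F w) y (qO π) (k + 1)) {Z : ℕ}
    (hZ : Z = num (letW w[adN D P (F w) y w.length k]? ++
      (letW y[adN D P (F w) y w.length k]? ++
        (mach D P).get (wd (stI P (F w) y π w.length k)) (mw π (mem P (F w) y k))))) :
    tN (stI P (F w) y π w.length k) Z (uu P (conf P (F w) y k))
      (vvL P (F w) y (conf P (F w) y k)) P[(conf P (F w) y k).1]? =
      cT π (cl P (F w) y (bO π) (kO π) (k + 1)) (mem P (F w) y (k + 1)) := by
  have hal' := hal.mono (Nat.le_succ k)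
  have hlen := cl_length P (F w) y (bO π) (kO_pos hπ) k
  have hcl := cl_lt (bO π) (kO π) hal'
  have hM := mem_alive hal'
  have hu := hal k (Nat.le_succ k) (a0 P[(conf P (F w) y k).1]?)
  unfold tN
  rw [πO_stI, tO_stI]
  have em : mem P (F w) y (k + 1) = if isSt P[(conf P (F w) y k).1]? = 0 then mem P (F w) y k else
      Function.update (mem P (F w) y k) (uu P (conf P (F w) y k))
        (vvL P (F w) y (conf P (F w) y k)) := rfl
  have ec : cl P (F w) y (bO π) (kO π) (k + 1) = if isL P[(conf P (F w) y k).1]? = 0 then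
      cl P (F w) y (bO π) (kO π) k else
      if uu P (conf P (F w) y k) / bO π ∈ cl P (F w) y (bO π) (kO π) k then
        cl P (F w) y (bO π) (kO π) k else
        if (cl P (F w) y (bO π) (kO π) k).length < kO π then
          cl P (F w) y (bO π) (kO π) k ++ [uu P (conf P (F w) y k) / bO π]
          else [uu P (conf P (F w) y k) / bO π] := rfl
  by_cases h1 : isL P[(conf P (F w) y k).1]? = 0
  · rw [ec, if_pos h1, h1, ifz_zero, em]
    by_cases h2 : isSt P[(conf P (F w) y k).1]? = 0
    · rw [h2, ifz_zero, if_pos rfl]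
    · rw [ifz_ne h2, if_neg h2]
      refine upT_eq hπ hlen hcl hM _ ?_
      have := vvL_alive hal h2
      omega
  · have h2 : isSt P[(conf P (F w) y k).1]? = 0 := by
      rcases ho : P[(conf P (F w) y k).1]? with _ | o
      · rfl
      · rw [ho] at h1
        cases o <;> first | rfl | exact absurd rfl h1
    rw [ec, if_neg h1, ifz_ne h1, em, if_pos h2]
    by_cases h3 : uu P (conf P (F w) y k) / bO π ∈ cl P (F w) y (bO π) (kO π) k
    · rw [if_pos h3, lt01_eq (slN_mem hπ hlen hcl hM h3).1, ifz_ne one_ne_zero]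
    · have h4 : blkF P (stI P (F w) y π w.length k) =
          2 * (uu P (conf P (F w) y k) / bO π + 1) + 1 := by
        rw [blkF_stI P (F w) y w.length k hπ hal', if_pos ⟨h1, h3⟩]
      have h5 : Z / 16 - 1 = cB π (uu P (conf P (F w) y k) / bO π) (mem P (F w) y k) := by
        have hg := get_line D P (S := stI P (F w) y π w.length k) (sto_pos _ _ _ _ _) h4 π
          (mem P (F w) y k)
        rw [hZ, hg, show (16 : ℕ) = 4 * 4 by norm_num,
          ← Nat.div_div_eq_div_mul, div_letW, div_letW, num_wd (Nat.succ_pos _),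
          Nat.succ_sub_one]
      rw [if_neg h3, lt01_zero (slN_not hπ hcl hM h3), ifz_zero, h5]
      refine insN_eq hπ hlen hcl hM ?_
      exact lt_of_le_of_lt (Nat.add_le_add_right (Nat.div_le_self _ _) 1) hu

/-- The configurations of the machine. -/
theorem conf_machA {D : LD} {P : List Ins} {p : List Bool} (hπ : okN (num p) ≠ 0)
    (w y : List Bool) {t : ℕ} (ht : t ≤ w.length) :
    (mach D P).conf w y p t = (wd (sto 0 0 t 0 (Nat.pair (num p) 0)), mw (num p) fun _ => 0) := by
  induction t with
  | zero =>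
    refine Prod.ext ?_ ?_
    · show (mach D P).start p = _
      refine wf_eq ?_ (sto_pos _ _ _ _ _)
      unfold startF
      rw [ifz_ne hπ]
    · funext u
      show [] = wd (cB (num p) _ (fun _ => 0) + 1)
      rw [cB_zero, zero_add, wd_one]
  | succ t ih =>
    show (mach D P).step w y ((mach D P).conf w y p t) = _
    rw [ih (by omega), stepA D P hπ, if_pos (by omega)]

theorem alive_step {P : List Ins} {x y : List Bool} {Q k : ℕ} (hal : Alive P x y Q k) :
    valL P[(conf P x y k).1]? (uu P (conf P x y k)) (vvL P x y (conf P x y k)) + 1 < Q ↔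
      Alive P x y Q (k + 1) := by
  have hconf : (conf P x y (k + 1)).2 = Function.update (conf P x y k).2
          (dst P[(conf P x y k).1]? (uu P (conf P x y k)))
          (valL P[(conf P x y k).1]? (uu P (conf P x y k))
            (vvL P x y (conf P x y k))) := by
    rw [conf_succ, step_eqL]
  constructor
  · intro h u hu i
    rcases Nat.lt_or_ge k u with h1 | h1
    · have h2 : u = k + 1 := by omega
      rw [h2, hconf]
      by_cases h3 : i = dst P[(conf P x y k).1]? (uu P (conf P x y k))
      · rw [h3, Function.update_self]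
        exact h
      · rw [Function.update_of_ne h3]
        exact hal k le_rfl i
    · exact hal u h1 i
  · intro h
    have h1 := h (k + 1) le_rfl (dst P[(conf P x y k).1]? (uu P (conf P x y k)))
    rw [hconf, Function.update_self] at h1
    exact h1

/-- The new state. -/
theorem nextF_stI {D : LD} {F : List Bool → List Bool} (hF : D.Is F) {π : ℕ} (hπ : okN π ≠ 0)
    (P : List Ins) (w y : List Bool) (k : ℕ) (hal : Alive P (F w) y (qO π) k) {X : ℕ}
    (hx1 : hd X = stI P (F w) y π w.length k)
    (hx2 : tl X = num (letW w[adN D P (F w) y w.length k]? ++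
      (letW y[adN D P (F w) y w.length k]? ++
        (mach D P).get (wd (stI P (F w) y π w.length k)) (mw π (mem P (F w) y k))))) :
    (Alive P (F w) y (qO π) (k + 1) → nextF D P X = stI P (F w) y π w.length (k + 1)) ∧
    (¬Alive P (F w) y (qO π) (k + 1) → nextF D P X = 1) := by
  have hv := vS_stI hF hπ P w y k hal hx2
  unfold nextF
  rw [hx1, πO_stI, ifz_ne hπ, pO_stI, ifz_ne (Nat.succ_ne_zero _), selF_eq,
    Nat.add_sub_cancel]
  unfold nxS
  rw [hx1, pO_stI, Nat.add_sub_cancel, nO_stI, uO_stI, uS_stI, hv, πO_stI]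
  constructor
  · intro h1
    rw [lt01_eq ((alive_step hal).2 h1), ifz_ne one_ne_zero,
      tN_stI hπ P w y k h1 hx2, setV_tup]
    unfold stI
    have hconf : conf P (F w) y (k + 1) = (npc P[(conf P (F w) y k).1]?
      (conf P (F w) y k).1
        (uu P (conf P (F w) y k)), Function.update (conf P (F w) y k).2
          (dst P[(conf P (F w) y k).1]? (uu P (conf P (F w) y k)))
          (valL P[(conf P (F w) y k).1]? (uu P (conf P (F w) y k))
            (vvL P (F w) y (conf P (F w) y k)))) := by
      rw [conf_succ, step_eqL]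
    have hmsg : msg P (F w) y (k + 1) = ifz (isSt P[(conf P (F w) y k).1]?) 0
      (Nat.pair (uu P (conf P (F w) y k)) (vvL P (F w) y (conf P (F w) y k)) + 1) := rfl
    rw [hconf, hmsg]
  · intro h1
    rw [lt01_zero fun h => h1 ((alive_step hal).1 h), ifz_zero]

theorem step_fst (D : LD) (P : List Ins) (w y q : List Bool) (M : List Bool → List Bool) :
    ((mach D P).step w y (q, M)).1 = (mach D P).nx w y q ((mach D P).get q M) := rfl

theorem conf_add_one (D : LD) (P : List Ins) (w y p : List Bool) (t : ℕ) :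
    (mach D P).conf w y p (t + 1) = (mach D P).step w y ((mach D P).conf w y p t) := rfl

theorem conf_mach {D : LD} {F : List Bool → List Bool} (hF : D.Is F) (P : List Ins)
    {p : List Bool} (hπ : okN (num p) ≠ 0) (w y : List Bool) (k : ℕ) :
    (Alive P (F w) y (qO (num p)) k → (mach D P).conf w y p (w.length + 1 + k) =
      (wd (stI P (F w) y (num p) w.length k), mw (num p) (mem P (F w) y k))) ∧
    (¬Alive P (F w) y (qO (num p)) k →
      ((mach D P).conf w y p (w.length + 1 + k)).1 = wd 1) := by
  induction k with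
  | zero =>
    constructor
    · intro _
      rw [add_zero]
      show (mach D P).step w y ((mach D P).conf w y p w.length) = _
      rw [conf_machA hπ w y le_rfl, stepA D P hπ, if_neg (lt_irrefl _), stI_zero, mem_zero]
    · intro h
      exfalso
      apply h
      intro u hu i
      have h1 : u = 0 := by omega
      rw [h1]
      show 0 + 1 < _
      exact qO_pos hπ
  | succ k ih =>
    have hS0 : 0 < stI P (F w) y (num p) w.length k := sto_pos _ _ _ _ _
    by_cases hal : Alive P (F w) y (qO (num p)) k
    · have hc := ih.1 hal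
      constructor
      · intro h1
        rw [← add_assoc, conf_add_one, hc]
        refine step_mach D P hS0 (addrF_stI D P (F w) y (num p) w.length k)
          (sto_pos _ _ _ _ _) (fun x hx1 hx2 => ?_) fun X => ?_
        · exact (nextF_stI hF hπ P w y k hal hx1 hx2).1 h1
        · unfold wrG
          rw [mO_stI, πO_stI]
          show ifz (ifz (isSt P[(conf P (F w) y k).1]?) 0
            (Nat.pair (uu P (conf P (F w) y k)) (vvL P (F w) y (conf P (F w) y k)) + 1)) _
              (ifz (eq01 (X / 2 - 1) ((Nat.unpair (ifz (isSt P[(conf P (F w) y k).1]?) 0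
            (Nat.pair (uu P (conf P (F w) y k)) (vvL P (F w) y (conf P (F w) y k)) + 1) -
              1)).1 / bO (num p))) _
            (upB (num p) _ (Nat.unpair (ifz (isSt P[(conf P (F w) y k).1]?) 0
            (Nat.pair (uu P (conf P (F w) y k)) (vvL P (F w) y (conf P (F w) y k)) + 1) - 1)).1
              (Nat.unpair (ifz (isSt P[(conf P (F w) y k).1]?) 0
            (Nat.pair (uu P (conf P (F w) y k)) (vvL P (F w) y (conf P (F w) y k)) + 1) -
              1)).2 + 1)) =
            cB (num p) (X / 2 - 1) (if isSt P[(conf P (F w) y k).1]? = 0 then mem P (F w) y k else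
              Function.update (mem P (F w) y k) (uu P (conf P (F w) y k))
                (vvL P (F w) y (conf P (F w) y k))) + 1
          by_cases h : isSt P[(conf P (F w) y k).1]? = 0
          · rw [h, ifz_zero, ifz_zero, if_pos rfl]
          · rw [ifz_ne h, ifz_ne (Nat.succ_ne_zero _), if_neg h, Nat.add_sub_cancel,
              Nat.unpair_pair, Nat.add_sub_cancel]
            dsimp only
            by_cases hz : X / 2 - 1 = uu P (conf P (F w) y k) / bO (num p)
            · have e : eq01 (X / 2 - 1) (uu P (conf P (F w) y k) / bO (num p)) = 1 := if_pos hz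
              rw [e, ifz_ne one_ne_zero, hz, upB_eq hπ (mem_alive hal)]
              have := vvL_alive h1 h
              omega
            · have e : eq01 (X / 2 - 1) (uu P (conf P (F w) y k) / bO (num p)) = 0 := if_neg hz
              rw [e, ifz_zero, cB_update hπ hz]
      · intro h1
        rw [← add_assoc, conf_add_one, hc, step_fst]
        unfold BM.nx
        rw [addr_wd D P hS0 (addrF_stI D P (F w) y (num p) w.length k),
          Pool.Agent.Helper31.TMS.bval_bits]
        refine wf_eq ?_ Nat.one_pos
        exact (nextF_stI hF hπ P w y k hal (by rw [hd_eq, num_wd hS0]) (by rw [tl_eq])).2 h1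
    · constructor
      · intro h1
        exact absurd (h1.mono (Nat.le_succ k)) hal
      · intro _
        rw [← add_assoc]
        exact dead_add D P (ih.2 hal) 1

theorem conf_fst {D : LD} {F : List Bool → List Bool} (hF : D.Is F) (P : List Ins)
    {p : List Bool} (hπ : okN (num p) ≠ 0) (w y : List Bool) {t : ℕ}
    (hal : Alive P (F w) y (qO (num p)) t) :
    ((mach D P).conf w y p (w.length + 1 + t)).1 = wd (stI P (F w) y (num p) w.length t) := by
  rw [(conf_mach hF P hπ w y t).1 hal]

/-- Acceptance. -/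
theorem acc_stI (P : List Ins) (x y : List Bool) (π n k : ℕ) :
    (wd (stI P x y π n k)).head? = some true ↔ AcceptsAt P x y k := by
  unfold stI
  rw [head_st (accF_le _ _), accF_eq_one]
  rfl

theorem head_dead : (wd 1).head? ≠ some true := by
  rw [wd_one]
  exact fun h => by cases h

/-- **Soundness**. -/
theorem sound {D : LD} {F : List Bool → List Bool} (hF : D.Is F) (P : List Ins)
    (w y p : List Bool) (r : ℕ) (h : (mach D P).AcceptsAt w y p r) :
    ∃ t, AcceptsAt P (F w) y t := by
  unfold BM.AcceptsAt at h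
  by_cases hπ : okN (num p) = 0
  · have h0 : ((mach D P).conf w y p 0).1 = wd 1 := by
      show (mach D P).start p = wd 1
      refine wf_eq ?_ Nat.one_pos
      unfold startF
      rw [hπ, ifz_zero]
    have h1 := dead_add D P h0 r
    rw [zero_add] at h1
    rw [h1] at h
    exact absurd h head_dead
  · rcases le_or_gt r w.length with hr | hr
    · rw [conf_machA hπ w y hr] at h
      have h2 := (head_st (Nat.zero_le 1) 0 r 0 (Nat.pair (num p) 0)).1 h
      exact absurd h2 (by norm_num)
    · obtain ⟨t, rfl⟩ : ∃ t, r = w.length + 1 + t := ⟨r - w.length - 1, by omega⟩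
      refine ⟨t, ?_⟩
      by_cases hal : Alive P (F w) y (qO (num p)) t
      · rw [conf_fst hF P hπ w y hal] at h
        exact (acc_stI P (F w) y (num p) w.length t).1 h
      · rw [(conf_mach hF P hπ w y t).2 hal] at h
        exact absurd h head_dead

/-- **Acceptance** of the machine. -/
theorem complete {D : LD} {F : List Bool → List Bool} (hF : D.Is F) (P : List Ins)
    {p : List Bool} (hπ : okN (num p) ≠ 0) {w y : List Bool} {t : ℕ}
    (hal : Alive P (F w) y (qO (num p)) t) (h : AcceptsAt P (F w) y t) :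
    (mach D P).AcceptsAt w y p (w.length + 1 + t) := by
  unfold BM.AcceptsAt
  rw [conf_fst hF P hπ w y hal]
  exact (acc_stI P (F w) y (num p) w.length t).2 h

end Pool.Agent.Helper81.IC
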