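import Pool.Agent.Helper81.IC.Defs
import Pool.Agent.Helper81.IC.Sim

/-!
# A cache which is emptied if it is full

It needs at most twice the number of the lines which are brought into a cache of half the size with
the best replacement, and a number of further lines which is at most its size.
-/

set_option autoImplicit false

namespace Pool.Agent.Helper81.IC

open Finset
open Pool.Agent.Helper81.RP (Ins AcceptsAt conf uu)
open Pool.Agent.Helper81.RR (ld isL ld_eq)

/-- A line is brought into the cache in the step `k`. -/
def Miss (P : List Ins) (x y : List Bool) (B κ k : ℕ) : Prop :=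
  isL P[(conf P x y k).1]? ≠ 0 ∧ uu P (conf P x y k) / B ∉ cl P x y B κ k

instance (P : List Ins) (x y : List Bool) (B κ : ℕ) : DecidablePred (Miss P x y B κ) := by
  intro k
  unfold Miss
  infer_instance

/-- The number of the lines which are brought into the cache. -/
def ms (P : List Ins) (x y : List Bool) (B κ t : ℕ) : ℕ :=
  ((range t).filter (Miss P x y B κ)).card

theorem ms_succ (P : List Ins) (x y : List Bool) (B κ t : ℕ) :
    ms P x y B κ (t + 1) = ms P x y B κ t + if Miss P x y B κ t then 1 else 0 := by
  unfold ms
  rw [range_add_one, filter_insert]
  split_ifs with h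
  · rw [card_insert_of_notMem]
    simp
  · rfl

theorem cl_nodup (P : List Ins) (x y : List Bool) (B κ k : ℕ) : (cl P x y B κ k).Nodup := by
  induction k with
  | zero => exact List.nodup_nil
  | succ k ih =>
    unfold cl
    split_ifs with h1 h2 h3
    · exact ih
    · exact ih
    · rw [List.nodup_append]
      refine ⟨ih, List.nodup_singleton _, fun a ha b hb => ?_⟩
      rw [List.mem_singleton] at hb
      rw [hb]
      intro h4
      rw [h4] at ha
      exact h2 ha
    · exact List.nodup_singleton _

theorem cl_hit {P : List Ins} {x y : List Bool} {B κ k : ℕ} (h : ¬Miss P x y B κ k) :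
    cl P x y B κ (k + 1) = cl P x y B κ k := by
  unfold Miss at h
  conv_lhs => unfold cl
  by_cases h1 : isL P[(conf P x y k).1]? = 0
  · rw [if_pos h1]
  · rw [if_neg h1, if_pos]
    by_contra h2
    exact h ⟨h1, h2⟩

theorem cl_miss {P : List Ins} {x y : List Bool} {B κ k : ℕ} (h : Miss P x y B κ k) :
    cl P x y B κ (k + 1) = if (cl P x y B κ k).length < κ then
      cl P x y B κ k ++ [uu P (conf P x y k) / B] else [uu P (conf P x y k) / B] := by
  conv_lhs => unfold cl
  rw [if_neg h.1, if_neg h.2]

/-- **The number of the lines which are brought into the cache.** -/
theorem ms_le {P : List Ins} {w y : List Bool} {B k x t : ℕ} (hk : 0 < k)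
    (h : Served P w y B k x t) : ms P w y B (2 * k) t ≤ 2 * x + 2 * k := by
  obtain ⟨S, hS0, hSk, hSl, hx⟩ := h
  have key : ∀ u ≤ t, ∃ Λ, Λ ≤ ∑ v ∈ range u, (S (v + 1) \ S v).card ∧
      ((cl P w y B (2 * k) u).toFinset ∪ S u).card ≤
        k + (∑ v ∈ range u, (S (v + 1) \ S v).card - Λ) ∧
      ms P w y B (2 * k) u ≤ 2 * Λ + (cl P w y B (2 * k) u).length := by
    intro u
    induction u with
    | zero =>
      intro _
      refine ⟨0, Nat.zero_le _, ?_, ?_⟩
      · rw [hS0]
        exact Nat.zero_le _
      · exact Nat.zero_le _
    | succ u ih =>
      intro hu
      obtain ⟨Λ, h1, h2, h3⟩ := ih (by omega)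
      have hnd := cl_nodup P w y B (2 * k) u
      have hle := cl_length P w y B (κ := 2 * k) (by omega) u
      have h4 : ((cl P w y B (2 * k) u).toFinset ∪ S (u + 1)).card ≤
          k + (∑ v ∈ range (u + 1), (S (v + 1) \ S v).card - Λ) := by
        have h5 : (cl P w y B (2 * k) u).toFinset ∪ S (u + 1) ⊆
            ((cl P w y B (2 * k) u).toFinset ∪ S u) ∪ (S (u + 1) \ S u) := by
          intro a ha
          rw [mem_union] at ha
          rw [mem_union, mem_union, mem_sdiff]
          by_cases h6 : a ∈ S u
          · exact Or.inl (Or.inr h6)
          · rcases ha with ha | ha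
            · exact Or.inl (Or.inl ha)
            · exact Or.inr ⟨ha, h6⟩
        have h6 := (card_le_card h5).trans (card_union_le _ _)
        rw [sum_range_succ]
        omega
      have h7 : Λ ≤ ∑ v ∈ range (u + 1), (S (v + 1) \ S v).card := by
        rw [sum_range_succ]
        omega
      rw [ms_succ]
      by_cases hm : Miss P w y B (2 * k) u
      · rw [if_pos hm, cl_miss hm]
        have hj : uu P (conf P w y u) / B ∈ S (u + 1) := by
          refine hSl u (by omega) _ ?_
          rw [ld_eq, if_neg hm.1]
        by_cases hl : (cl P w y B (2 * k) u).length < 2 * k
        · rw [if_pos hl]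
          refine ⟨Λ, h7, ?_, ?_⟩
          · have e : (cl P w y B (2 * k) u ++ [uu P (conf P w y u) / B]).toFinset ∪ S (u + 1) =
                (cl P w y B (2 * k) u).toFinset ∪ S (u + 1) := by
              ext a
              simp only [List.toFinset_append, mem_union, List.mem_toFinset, List.mem_singleton]
              constructor
              · rintro ((h8 | h8) | h8)
                · exact Or.inl h8
                · rw [h8]
                  exact Or.inr hj
                · exact Or.inr h8
              · rintro (h8 | h8)
                · exact Or.inl (Or.inl h8)
                · exact Or.inr h8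
            rw [e]
            exact h4
          · rw [List.length_append, List.length_singleton]
            omega
        · rw [if_neg hl]
          have h8 : (insert (uu P (conf P w y u) / B)
              (cl P w y B (2 * k) u).toFinset).card = 2 * k + 1 := by
            rw [card_insert_of_notMem (by rw [List.mem_toFinset]; exact hm.2),
              List.toFinset_card_of_nodup hnd]
            omega
          have h9 : insert (uu P (conf P w y u) / B) (cl P w y B (2 * k) u).toFinset ⊆
              (cl P w y B (2 * k) u).toFinset ∪ S (u + 1) := by
            intro a ha
            rw [mem_insert] at ha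
            rw [mem_union]
            rcases ha with ha | ha
            · rw [ha]
              exact Or.inr hj
            · exact Or.inl ha
          have h10 := card_le_card h9
          rw [h8] at h10
          refine ⟨∑ v ∈ range (u + 1), (S (v + 1) \ S v).card, le_rfl, ?_, ?_⟩
          · have e : ([uu P (conf P w y u) / B] : List ℕ).toFinset ∪ S (u + 1) = S (u + 1) := by
              ext a
              simp only [mem_union, List.mem_toFinset, List.mem_singleton]
              constructor
              · rintro (h8 | h8)
                · rw [h8]
                  exact hj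
                · exact h8
              · exact Or.inr
            rw [e]
            exact (hSk (u + 1) hu).trans (Nat.le_add_right _ _)
          · rw [List.length_singleton]
            omega
      · rw [if_neg hm, cl_hit hm]
        exact ⟨Λ, h7, h4, by omega⟩
  obtain ⟨Λ, h1, -, h3⟩ := key t le_rfl
  have hle := cl_length P w y B (κ := 2 * k) (by omega) t
  omega

end Pool.Agent.Helper81.IC
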