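import Pool.Agent.Helper81.IC.FWF
import Pool.Agent.Helper81.RR.Good

/-!
# Programs of random access machines with a cache: bounds
-/

set_option autoImplicit false

namespace Pool.Agent.Helper81.IC

open Pool.Agent.Helper65.LinSpace Pool.Agent.Helper78.Mpc Pool.Agent.Helper28.Ram
open Pool.Agent.Helper65.BR (BM)
open Pool.Agent.Helper81.RP (Ins lett step AcceptsAt conf conf_succ wd num_wd uu accF_le bd
  wd_one length_wd_le pc_le pair_lt)
open Pool.Agent.Helper92.RE
open Pool.Agent.Helper81.RR (ld isL ld_eq msg_lt two_pow_gt tup_lt adN)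

/-- The constant for the bound of the state. -/
def cK (P : List Ins) : ℕ := bd P + 2 + 2 ^ (bd P + 1) + 16

section

variable {D : LD} {F : List Bool → List Bool} (hF : D.Is F) {P : List Ins}
  {w y p : List Bool}

theorem blkF_A (π n : ℕ) : blkF P (sto 0 0 n 0 (Nat.pair π 0)) = 1 := by
  unfold blkF
  rw [pO_sto (by omega), ifz_zero]

include hF in
theorem reads_mach (hπ : okN (num p) ≠ 0) {t : ℕ} (hal : Alive P (F w) y (qO (num p)) t) :
    (mach D P).reads w y p (w.length + 1 + t) ≤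
      ms P (F w) y (bO (num p)) (kO (num p)) t := by
  unfold BM.reads ms
  have hsub : {τ : ℕ | τ < w.length + 1 + t ∧
      ((mach D P).blk ((mach D P).conf w y p τ).1).head? = some true} ⊆
      ↑(((Finset.range t).filter (Miss P (F w) y (bO (num p)) (kO (num p)))).image
        fun k => w.length + 1 + k) := by
    rintro τ ⟨h1, h2⟩
    rcases le_or_gt τ w.length with h | h
    · exfalso
      rw [conf_machA hπ w y h] at h2
      dsimp only at h2
      rw [blk_wd D P (sto_pos _ _ _ _ _) Nat.one_pos (blkF_A _ _)] at h2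
      exact head_dead h2
    · obtain ⟨k, rfl⟩ : ∃ k, τ = w.length + 1 + k := ⟨τ - w.length - 1, by omega⟩
      have hk : k < t := by omega
      have halk := hal.mono hk.le
      rw [conf_fst hF P hπ w y halk] at h2
      have hb := blkF_stI P (F w) y w.length k hπ halk
      rw [Finset.coe_image]
      refine ⟨k, ?_, rfl⟩
      rw [Finset.mem_coe, Finset.mem_filter, Finset.mem_range]
      refine ⟨hk, ?_⟩
      by_contra hm
      unfold Miss at hm
      rw [if_neg hm] at hb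
      rw [blk_wd D P (S := stI P (F w) y (num p) w.length k) (sto_pos _ _ _ _ _)
        Nat.one_pos hb] at h2
      exact head_dead h2
  refine (Set.ncard_le_ncard hsub (Finset.finite_toSet _)).trans ?_
  rw [Set.ncard_coe_finset]
  exact Finset.card_image_le

theorem cB_lt {π : ℕ} {M : ℕ → ℕ} (hM : ∀ j, M j < qO π) (j : ℕ) :
    cB π j M < qO π ^ bO π := tab_lt fun _ _ => hM _

include hF in
theorem fits_mach {t s b e : ℕ} (hπ : okN (num p) ≠ 0) (hs : 1 ≤ s) (hn : w.length < 2 ^ s)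
    (hQ : qO (num p) = 2 ^ s + 1) (hse : s ≤ e)
    (hpe : num p < 2 ^ (8 * e)) (hTe : qO (num p) ^ (kO (num p) * (bO (num p) + 1)) ≤ 2 ^ e)
    (hR : ∀ k ≤ t, ∀ i, (conf P (F w) y k).2 i < 2 ^ s)
    (hb : ∀ k ≤ t, ∀ z, ld P (conf P (F w) y k) = some z → z < 2 ^ b) :
    (mach D P).Fits w y p (w.length + 1 + t) ((8 * cK P + 1) * e) (b + 1)
      ((s + 1) * bO (num p)) := by
  have hal : Alive P (F w) y (qO (num p)) t := by
    intro u hu i
    rw [hQ]
    exact Nat.add_lt_add_right (hR u hu i) 1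
  have he : 1 ≤ e := hs.trans hse
  have hp1 := Nat.two_pow_pos (bd P + 1)
  have hck1 : 16 ≤ cK P := by
    unfold cK
    omega
  have hec : e ≤ cK P * e := Nat.le_mul_of_pos_left _ (by omega)
  have hss : s ≤ (8 * cK P + 1) * e := hse.trans (Nat.le_mul_of_pos_left _ (by omega))
  have hlen : 8 * (cK P * e) + 1 ≤ (8 * cK P + 1) * e := by
    rw [Nat.add_mul, Nat.mul_assoc, one_mul]
    omega
  have hpow : ∀ j : ℕ, j ≤ cK P → 2 ^ (j * e) ≤ 2 ^ (cK P * e) := fun j hj =>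
    Nat.pow_le_pow_right (by norm_num) (Nat.mul_le_mul_right _ hj)
  have hpow1 : 2 ^ s ≤ 2 ^ (cK P * e) := Nat.pow_le_pow_right (by norm_num) (hse.trans hec)
  have hpows : ∀ j : ℕ, j ≤ cK P → 2 ^ (j * s) ≤ 2 ^ (cK P * e) := fun j hj =>
    Nat.pow_le_pow_right (by norm_num) (Nat.mul_le_mul hj hse)
  have h2 : 0 < 2 ^ (cK P * e) := Nat.two_pow_pos _
  have hbs : ∀ j : ℕ, j < 2 ^ s → j.bits.length ≤ s := fun j hj => length_bits hj
  have hQp : qO (num p) ≤ 2 ^ (s + 1) := by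
    rw [hQ, pow_succ]
    have := Nat.two_pow_pos s
    omega
  have hmw : ∀ M : ℕ → ℕ, (∀ j, M j < qO (num p)) → ∀ u, (mw (num p) M u).length ≤
      (s + 1) * bO (num p) := by
    intro M hM u
    unfold mw
    refine length_wd_le (Nat.succ_pos _) ?_
    have h3 := cB_lt hM (num u / 2 - 1)
    have h4 : qO (num p) ^ bO (num p) ≤ 2 ^ ((s + 1) * bO (num p)) := by
      rw [pow_mul]
      exact Nat.pow_le_pow_left hQp _
    rw [pow_succ]
    omega
  have hq0 : 0 < qO (num p) := by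
    rw [hQ]
    exact Nat.succ_pos _
  intro τ hτ
  rcases le_or_gt τ w.length with h | h
  · -- the computation of the length
    rw [conf_machA hπ w y h]
    refine ⟨?_, ?_, ?_, fun u _ => hmw _ (fun _ => hq0) u⟩
    · refine (length_sto (s := cK P * e) (by omega) h2 (by omega) h2 ?_).trans hlen
      refine (pair_lt hpe (Nat.two_pow_pos (8 * e))).trans_le ?_
      rw [show 2 * (8 * e) = 16 * e by ring]
      exact hpow 16 hck1
    · have ha : Pool.Agent.Helper81.RR.addrF D P (sto 0 0 τ 0 (Nat.pair (num p) 0)) =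
          bitsN τ := by
        unfold Pool.Agent.Helper81.RR.addrF
        rw [pO_sto (by omega), ifz_zero, nO_sto (by omega)]
      rw [addr_wd D P (sto_pos _ _ _ _ _) ha]
      exact (hbs τ (by omega)).trans hss
    · rw [blk_wd D P (sto_pos _ _ _ _ _) Nat.one_pos (blkF_A _ _), wd_one]
      exact Nat.zero_le _
  · obtain ⟨k, rfl⟩ : ∃ k, τ = w.length + 1 + k := ⟨τ - w.length - 1, by omega⟩
    have hk : k ≤ t := by omega
    have halk := hal.mono hk
    have hpos : 0 < stI P (F w) y (num p) w.length k := sto_pos _ _ _ _ _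
    rw [(conf_mach hF P hπ w y k).1 halk]
    dsimp only
    refine ⟨?_, ?_, ?_, fun u _ => hmw _ (mem_alive halk) u⟩
    · unfold stI
      refine (length_sto (s := cK P * e) (accF_le _ _) ?_ ?_ ?_ ?_).trans hlen
      · have h3 := pc_le P (F w) y k
        have h4 := two_pow_gt (bd P) s hs
        have h5 := hpows (bd P + 2) (by unfold cK; omega)
        omega
      · omega
      · refine (tup_lt (s := s) fun i _ => hR k hk i).trans_le (hpows _ ?_)
        unfold cK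
        omega
      · have h3 : Pool.Agent.Helper81.RR.msg P (F w) y k < 2 ^ (3 * e) :=
          (msg_lt hs hR hk).trans_le
            (Nat.pow_le_pow_right (by norm_num) (Nat.mul_le_mul_left _ hse))
        have h4 : cT (num p) (cl P (F w) y (bO (num p)) (kO (num p)) k)
            (Pool.Agent.Helper81.RR.mem P (F w) y k) < 2 ^ (3 * e) := by
          refine (tab_lt fun _ _ => cd_lt hπ (cl_lt _ _ halk) (mem_alive halk) _ _).trans_le
            (hTe.trans ?_)
          exact Nat.pow_le_pow_right (by norm_num) (by omega)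
        have h5 := pair_lt h3 h4
        have h6 : 2 ^ (2 * (3 * e)) ≤ 2 ^ (8 * e) :=
          Nat.pow_le_pow_right (by norm_num) (by omega)
        refine (pair_lt hpe (h5.trans_le h6)).trans_le ?_
        rw [show 2 * (8 * e) = 16 * e by ring]
        exact hpow 16 hck1
    · rw [addr_wd D P hpos (addrF_stI D P (F w) y (num p) w.length k)]
      refine (hbs _ ?_).trans hss
      unfold adN ifz
      split_ifs
      · exact Nat.two_pow_pos _
      · exact adr1_lt hn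
      · exact hR k hk _
    · have hbl := blkF_stI P (F w) y w.length k hπ halk
      by_cases hm : isL P[(conf P (F w) y k).1]? ≠ 0 ∧
          uu P (conf P (F w) y k) / bO (num p) ∉ cl P (F w) y (bO (num p)) (kO (num p)) k
      · rw [if_pos hm] at hbl
        rw [blk_wd D P hpos (Nat.succ_pos _) hbl]
        refine length_wd_le (Nat.succ_pos _) ?_
        have h3 : uu P (conf P (F w) y k) < 2 ^ b := by
          refine hb k hk _ ?_
          rw [ld_eq, if_neg hm.1]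
        have h4 := Nat.div_le_self (uu P (conf P (F w) y k)) (bO (num p))
        have h5 := Nat.two_pow_pos b
        rw [pow_succ, pow_succ]
        omega
      · rw [if_neg hm] at hbl
        rw [blk_wd D P hpos Nat.one_pos hbl, wd_one]
        exact Nat.zero_le _

end

/-- The bounds. -/
theorem bounds {C N N' B₀ l l' s k B x r c e a : ℝ} (hl : 1 ≤ l) (hl' : 0 ≤ l')
    (hll : l' ≤ 2 * l) (hs : 1 ≤ s) (hk : 1 ≤ k) (hB : 1 ≤ B) (hr : 0 ≤ r)
    (hrx : r ≤ 2 * x + 2 * k) (hN : 1 ≤ N) (hN1 : 1 ≤ N') (hB0 : 1 ≤ B₀) (hN' : N' ≤ B₀ * N)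
    (hc : 0 ≤ c) (he0 : 0 ≤ e) (he : e ≤ 9 * (s * k * B)) (ha0 : 0 ≤ a) (ha : a ≤ 2 * (s * B))
    (b1 : x ^ 2 * B * s * l ^ 4 ≤ C * N' ^ 3) (b2 : k * B * s * l ^ 4 ≤ C * N') :
    r ^ 2 * (a + 1) * l' ^ 4 ≤ (384 + 16 * (9 * c + 2)) * (|C| + |C| ^ 2) * B₀ ^ 3 * N ^ 3 ∧
      (c * e + a) * l' ^ 4 ≤ (384 + 16 * (9 * c + 2)) * (|C| + |C| ^ 2) * B₀ ^ 3 * N := by
  have hC : 0 ≤ |C| := abs_nonneg C
  have hN0 : 0 ≤ N := by linarith
  have hN'0 : 0 ≤ N' := by linarith
  have hB00 : 0 ≤ B₀ := by linarith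
  have hs0 : 0 ≤ s := by linarith
  have hk0 : 0 ≤ k := by linarith
  have hBB : 0 ≤ B := by linarith
  have hl0 : 0 ≤ l := by linarith
  have hl4 : l' ^ 4 ≤ 16 * l ^ 4 := by
    calc l' ^ 4 ≤ (2 * l) ^ 4 := pow_le_pow_left₀ hl' hll 4
      _ = 16 * l ^ 4 := by ring
  have hl41 : 1 ≤ l ^ 4 := one_le_pow₀ hl
  have hsB : 1 ≤ s * B := by nlinarith
  have hB3 : B₀ ≤ B₀ ^ 3 := le_self_pow₀ hB0 (by norm_num)
  have c1 : x ^ 2 * B * s * l ^ 4 ≤ |C| * N' ^ 3 :=
    b1.trans (mul_le_mul_of_nonneg_right (le_abs_self C) (by positivity))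
  have c2 : k * B * s * l ^ 4 ≤ |C| * N' :=
    b2.trans (mul_le_mul_of_nonneg_right (le_abs_self C) hN'0)
  have hBsl : 1 ≤ B * s * l ^ 4 := by
    have h1 : 1 ≤ B * s := by linarith [mul_comm s B]
    nlinarith
  have c3 : k ≤ |C| * N' := by
    refine le_trans ?_ c2
    calc k = k * 1 := (mul_one k).symm
      _ ≤ k * (B * s * l ^ 4) := mul_le_mul_of_nonneg_left hBsl hk0
      _ = k * B * s * l ^ 4 := by ring
  have c4 : k ^ 2 * B * s * l ^ 4 ≤ |C| ^ 2 * N' ^ 3 := by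
    calc k ^ 2 * B * s * l ^ 4 = k * (k * B * s * l ^ 4) := by ring
      _ ≤ (|C| * N') * (|C| * N') := mul_le_mul c3 c2 (by positivity) (by positivity)
      _ = |C| ^ 2 * N' ^ 2 := by ring
      _ ≤ |C| ^ 2 * N' ^ 3 := by
        refine mul_le_mul_of_nonneg_left ?_ (by positivity)
        exact pow_le_pow_right₀ hN1 (by norm_num)
  have hr2 : r ^ 2 ≤ 8 * x ^ 2 + 8 * k ^ 2 := by
    calc r ^ 2 ≤ (2 * x + 2 * k) ^ 2 := pow_le_pow_left₀ hr hrx 2
      _ ≤ 8 * x ^ 2 + 8 * k ^ 2 := by nlinarith [sq_nonneg (x - k)]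
  have ha1 : a + 1 ≤ 3 * (s * B) := by linarith
  have hN3 : N' ^ 3 ≤ B₀ ^ 3 * N ^ 3 := by
    calc N' ^ 3 ≤ (B₀ * N) ^ 3 := pow_le_pow_left₀ hN'0 hN' 3
      _ = _ := by ring
  constructor
  · calc r ^ 2 * (a + 1) * l' ^ 4 ≤ (8 * x ^ 2 + 8 * k ^ 2) * (3 * (s * B)) * (16 * l ^ 4) := by
          gcongr
      _ = 384 * (x ^ 2 * B * s * l ^ 4 + k ^ 2 * B * s * l ^ 4) := by ring
      _ ≤ 384 * (|C| * N' ^ 3 + |C| ^ 2 * N' ^ 3) := by gcongr
      _ = 384 * (|C| + |C| ^ 2) * N' ^ 3 := by ring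
      _ ≤ (384 + 16 * (9 * c + 2)) * (|C| + |C| ^ 2) * (B₀ ^ 3 * N ^ 3) := by
        gcongr
        linarith
      _ = _ := by ring
  · have h1 : c * e + a ≤ (9 * c + 2) * (s * k * B) := by
      have h2 : c * e ≤ c * (9 * (s * k * B)) := mul_le_mul_of_nonneg_left he hc
      have h3 : s * B ≤ s * k * B := by
        calc s * B = s * 1 * B := by ring
          _ ≤ s * k * B := by gcongr
      linarith
    calc (c * e + a) * l' ^ 4 ≤ ((9 * c + 2) * (s * k * B)) * (16 * l ^ 4) := by gcongr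
      _ = 16 * (9 * c + 2) * (k * B * s * l ^ 4) := by ring
      _ ≤ 16 * (9 * c + 2) * (|C| * N') := by gcongr
      _ ≤ (384 + 16 * (9 * c + 2)) * ((|C| + |C| ^ 2) * (B₀ ^ 3 * N)) := by
        have h3 : N' ≤ B₀ ^ 3 * N := hN'.trans (mul_le_mul_of_nonneg_right hB3 hN0)
        have h4 : |C| ≤ |C| + |C| ^ 2 := by nlinarith [sq_nonneg |C|]
        gcongr
        linarith
      _ = _ := by ring

/-- **The bounds for the machine** which runs the program. -/
theorem within_mach {D : LD} {F : List Bool → List Bool} (hF : D.Is F) {b₀ : ℕ}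
    (hlen : ∀ w, (F w).length ≤ b₀ * (w.length + 1)) (hle : ∀ w, w.length ≤ (F w).length)
    (P : List Ins) (C : ℝ) :
    ∃ C' : ℝ, ∀ w y : List Bool, Within P C (F w) y → (mach D P).Within C' w y := by
  set B₀ : ℝ := (b₀ : ℝ) + 1 with hB
  have hB1 : 1 ≤ B₀ := by
    have h1 : (0 : ℝ) ≤ b₀ := Nat.cast_nonneg _
    linarith
  refine ⟨(384 + 16 * (9 * (8 * (cK P : ℝ) + 1) + 2)) * (|C| + |C| ^ 2) * B₀ ^ 3, ?_⟩
  rintro w y ⟨t, s, b, B, k, x, hls, hBpos, hkpos, hacc, hR, hb, hserv, b1, b2⟩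
  have hwx : w.length ≤ (F w).length := hle w
  have hs1 : 1 ≤ s := by omega
  have hlogF : Nat.log 2 w.length ≤ Nat.log 2 (F w).length := Nat.log_mono_right hwx
  have hn : w.length < 2 ^ s := by
    refine hwx.trans_lt ((Nat.lt_pow_succ_log_self (b := 2) (by norm_num) _).trans_le ?_)
    exact Nat.pow_le_pow_right (by norm_num) hls
  have hN' : ((F w).length : ℝ) + 1 ≤ B₀ * ((w.length : ℝ) + 1) := by
    have h1 : (F w).length + 1 ≤ (b₀ + 1) * (w.length + 1) := by
      have h2 := hlen w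
      calc (F w).length + 1 ≤ b₀ * (w.length + 1) + 1 := by omega
        _ ≤ (b₀ + 1) * (w.length + 1) := by nlinarith
    rw [hB]
    exact_mod_cast h1
  have h0 : (0 : ℝ) ≤ w.length := Nat.cast_nonneg _
  have h0' : (0 : ℝ) ≤ (F w).length := Nat.cast_nonneg _
  have hb0 : (0 : ℝ) ≤ b := Nat.cast_nonneg _
  have hlg : (0 : ℝ) ≤ (Nat.log 2 (F w).length : ℝ) := Nat.cast_nonneg _
  have hlg' : (0 : ℝ) ≤ (Nat.log 2 w.length : ℝ) := Nat.cast_nonneg _
  have hll : (((b + 1 : ℕ) : ℝ) + ((Nat.log 2 w.length : ℝ) + 1)) ≤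
      2 * ((b : ℝ) + ((Nat.log 2 (F w).length : ℝ) + 1)) := by
    have h2 : (Nat.log 2 w.length : ℝ) ≤ Nat.log 2 (F w).length := by exact_mod_cast hlogF
    push_cast
    linarith
  have hl'0 : 0 ≤ (((b + 1 : ℕ) : ℝ) + ((Nat.log 2 w.length : ℝ) + 1)) :=
    add_nonneg (Nat.cast_nonneg _) (add_nonneg hlg' zero_le_one)
  have hcK0 : (0 : ℝ) ≤ 8 * (cK P : ℝ) + 1 := by
    have h1 : (0 : ℝ) ≤ (cK P : ℝ) := Nat.cast_nonneg _
    linarith
  -- the parameter
  obtain ⟨e, he⟩ : ∃ e, e = (s + 1) * (2 * k * (B + 1)) + 1 := ⟨_, rfl⟩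
  obtain ⟨π, hπd⟩ : ∃ π, π = par (2 ^ s + 1) B (2 * k) ((2 ^ s + 1) ^ (2 * k * (B + 1))) :=
    ⟨_, rfl⟩
  have hQ : qO π = 2 ^ s + 1 := by rw [hπd, qO_par]
  have hBO : bO π = B := by rw [hπd, bO_par]
  have hKO : kO π = 2 * k := by rw [hπd, kO_par]
  have hRO : rO π = (2 ^ s + 1) ^ (2 * k * (B + 1)) := by rw [hπd, rO_par]
  have hok : okN π ≠ 0 := by
    rw [okN_iff, hQ, hBO, hKO, hRO]
    have := Nat.two_pow_pos s
    exact ⟨by omega, hBpos, by omega, le_rfl⟩
  have hQ2 : 2 ^ s + 1 ≤ 2 ^ (s + 1) := by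
    rw [pow_succ]
    have := Nat.two_pow_pos s
    omega
  have hR1 : (2 ^ s + 1) ^ (2 * k * (B + 1)) ≤ 2 ^ ((s + 1) * (2 * k * (B + 1))) :=
    (Nat.pow_le_pow_left hQ2 _).trans (le_of_eq (pow_mul _ _ _).symm)
  have hRe : (2 ^ s + 1) ^ (2 * k * (B + 1)) < 2 ^ e := by
    rw [he]
    exact hR1.trans_lt (Nat.pow_lt_pow_right (by norm_num) (Nat.lt_succ_self _))
  have hk2 : 1 ≤ 2 * k * (B + 1) := Nat.mul_pos (by omega) (Nat.succ_pos _)
  have hkB : 2 * k ≤ 2 * k * (B + 1) := Nat.le_mul_of_pos_right _ (Nat.succ_pos _)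
  have hkB2 : B + 1 ≤ 2 * k * (B + 1) := Nat.le_mul_of_pos_left _ (by omega)
  have hse1 : 2 * k * (B + 1) ≤ (s + 1) * (2 * k * (B + 1)) :=
    Nat.le_mul_of_pos_left _ (Nat.succ_pos _)
  have hse2 : s + 1 ≤ (s + 1) * (2 * k * (B + 1)) := Nat.le_mul_of_pos_right _ hk2
  have he2 : e < 2 ^ e := Nat.lt_two_pow_self
  have hpe : π < 2 ^ (8 * e) := by
    have h1 : 2 ^ s + 1 < 2 ^ e :=
      hQ2.trans_lt (Nat.pow_lt_pow_right (by norm_num) (by omega))
    have h2 : B < 2 ^ e := by omega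
    have h3 : 2 * k < 2 ^ e := by omega
    have h4 := pair_lt h3 hRe
    have h5 : 2 ^ e ≤ 2 ^ (2 * e) := Nat.pow_le_pow_right (by norm_num) (by omega)
    have h6 := pair_lt (h2.trans_le h5) h4
    have h7 : 2 ^ e ≤ 2 ^ (2 * (2 * e)) := Nat.pow_le_pow_right (by norm_num) (by omega)
    have h8 := pair_lt (h1.trans_le h7) h6
    rw [hπd]
    unfold par
    rwa [show 8 * e = 2 * (2 * (2 * e)) by ring]
  have hπ0 : 0 < π := by
    rcases Nat.eq_zero_or_pos π with h | h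
    · rw [h] at hok
      exact absurd rfl hok
    · exact h
  have hnum : num (wd π) = π := num_wd hπ0
  have hok' : okN (num (wd π)) ≠ 0 := by
    rw [hnum]
    exact hok
  have hal : Alive P (F w) y (qO (num (wd π))) t := by
    intro u hu i
    rw [hnum, hQ]
    exact Nat.add_lt_add_right (hR u hu i) 1
  have hreads : (mach D P).reads w y (wd π) (w.length + 1 + t) ≤ 2 * x + 2 * k := by
    have h1 := reads_mach (D := D) hF hok' hal
    rw [hnum, hBO, hKO] at h1
    exact h1.trans (ms_le hkpos hserv)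
  have hfits := fits_mach (D := D) hF (w := w) (y := y) (p := wd π) (t := t) (s := s) (b := b)
    (e := e) hok' hs1 hn (by rw [hnum, hQ]) (by omega) (by rw [hnum]; exact hpe)
    (by rw [hnum, hQ, hBO, hKO]; exact hRe.le) hR hb
  rw [hnum, hBO] at hfits
  have he9 : (e : ℝ) ≤ 9 * ((s : ℝ) * k * B) := by
    have h1 : e ≤ 9 * (s * k * B) := by
      have h2 : (s + 1) * (2 * k * (B + 1)) ≤ (2 * s) * (2 * k * (2 * B)) :=
        Nat.mul_le_mul (by omega) (Nat.mul_le_mul_left _ (by omega))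
      have h3 : (2 * s) * (2 * k * (2 * B)) = 8 * (s * k * B) := by ring
      have h4 : 1 ≤ s * k * B := Nat.mul_pos (Nat.mul_pos hs1 hkpos) hBpos
      omega
    exact_mod_cast h1
  have ha2 : (((s + 1) * B : ℕ) : ℝ) ≤ 2 * ((s : ℝ) * B) := by
    have h1 : (s + 1) * B ≤ 2 * (s * B) := by
      calc (s + 1) * B ≤ (2 * s) * B := Nat.mul_le_mul_right _ (by omega)
        _ = 2 * (s * B) := by ring
    exact_mod_cast h1
  obtain ⟨q1, q2⟩ := bounds (C := C) (N := (w.length : ℝ) + 1) (N' := ((F w).length : ℝ) + 1)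
    (B₀ := B₀) (l := (b : ℝ) + ((Nat.log 2 (F w).length : ℝ) + 1))
    (l' := ((b + 1 : ℕ) : ℝ) + ((Nat.log 2 w.length : ℝ) + 1)) (s := (s : ℝ)) (k := (k : ℝ))
    (B := (B : ℝ)) (x := (x : ℝ))
    (r := ((mach D P).reads w y (wd π) (w.length + 1 + t) : ℝ))
    (c := 8 * (cK P : ℝ) + 1) (e := (e : ℝ)) (a := (((s + 1) * B : ℕ) : ℝ))
    (by linarith) hl'0 hll (by exact_mod_cast hs1) (by exact_mod_cast hkpos)
    (by exact_mod_cast hBpos) (Nat.cast_nonneg _)
    (by exact_mod_cast hreads) (by linarith) (by linarith) hB1 hN' hcK0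
    (Nat.cast_nonneg _) he9 (Nat.cast_nonneg _) ha2 b1 b2
  have hplen : (wd π).length ≤ (8 * cK P + 1) * e := by
    have h1 : (wd π).length ≤ 8 * e := length_wd_le hπ0 (hpe.trans_le
      (Nat.pow_le_pow_right (by norm_num) (Nat.le_succ _)))
    have h3 : 16 ≤ cK P := Nat.le_add_left _ _
    have h2 : 8 * e ≤ (8 * cK P + 1) * e := Nat.mul_le_mul_right _ (by omega)
    exact h1.trans h2
  refine ⟨wd π, w.length + 1 + t, (8 * cK P + 1) * e, b + 1, (s + 1) * B,
    complete hF P hok' hal hacc, hplen, hfits, ?_, ?_⟩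
  · exact q1
  · push_cast at q2 ⊢
    exact q2

end Pool.Agent.Helper81.IC
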