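import Pool.Agent.Helper81.IC.Sem
import Pool.Agent.Helper65.BR.Defs

/-!
# Programs of random access machines with a cache as machines with a memory of blocks

The lines are the blocks. The parameter is a number which codes the base of the digits, the number of
the registers in a line and the number of the slots of the cache.
-/

set_option autoImplicit false

namespace Pool.Agent.Helper81.IC

open Pool.Agent.Helper65.LinSpace Pool.Agent.Helper78.Mpc Pool.Agent.Helper28.Ram
open Pool.Agent.Helper65.OH (letW)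
open Pool.Agent.Helper65.BR (BM)
open Pool.Agent.Helper81.RP (Ins lett step AcceptsAt conf wd wf num_wd wd_num wf_eq linComp_wf
  length_wd ls_pair hd tl ls_hd ls_tl hd_eq tl_eq a0 a1 dst npc uu ls_a1 ls_dst
  ls_npc selF selF_eq ls_selF isA accF accF_le accF_eq_one ls_accF bd pair_lt)
open Pool.Agent.Helper92.RE
open Pool.Agent.Helper81.RR (getV setV ls_getV ls_setV l3 ls_l3 isL isSt uS ls_uS tup)

/-- The parameter. -/
def πO (S : ℕ) : ℕ := (Nat.unpair (vO S)).1

/-- The code of the register which is changed by `store` and of its content. -/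
def mO (S : ℕ) : ℕ := (Nat.unpair (Nat.unpair (vO S)).2).1

/-- The code of the cache. -/
def tO (S : ℕ) : ℕ := (Nat.unpair (Nat.unpair (vO S)).2).2

/-- The content of the second register, or the letter, in the state `S`, `Z` being the number of the
word which is read. -/
def vS (D : LD) (m S Z : ℕ) (o : Option Ins) : ℕ :=
  ifz (inpL o) (ifz (lt01 (a1 o (uS m S o)) m)
      (rdN (πO S) (tO S) (uS m S o) (Z / 16 - 1)) (getV m (uO S) (a1 o (uS m S o))))
    (ifz (inpL o - 1) (D.lt (nO S) (uS m S o) (l3 (Z % 4))) (l3 (Z / 4 % 4)))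

/-- The new code of the cache, if `u` and `v` are the contents of the two registers. -/
def tN (S Z u v : ℕ) (o : Option Ins) : ℕ :=
  ifz (isL o) (ifz (isSt o) (tO S) (upT (πO S) (tO S) u v))
    (ifz (lt01 (slN (πO S) (tO S) (u / bO (πO S))) (kO (πO S)))
      (insN (πO S) (tO S) (u / bO (πO S)) (Z / 16 - 1)) (tO S))

/-- The new state. -/
def nxS (D : LD) (P : List Ins) (S Z : ℕ) (o : Option Ins) : ℕ :=
  ifz (lt01 (valL o (uS (bd P + 1) S o) (vS D (bd P + 1) S Z o) + 1) (qO (πO S))) 1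
    (sto (accF P (npc o (pO S - 1) (uS (bd P + 1) S o)))
      (npc o (pO S - 1) (uS (bd P + 1) S o) + 1) (nO S)
      (setV (bd P + 1) (uO S) (dst o (uS (bd P + 1) S o))
        (valL o (uS (bd P + 1) S o) (vS D (bd P + 1) S Z o)))
      (Nat.pair (πO S) (Nat.pair (ifz (isSt o) 0
          (Nat.pair (uS (bd P + 1) S o) (vS D (bd P + 1) S Z o) + 1))
        (tN S Z (uS (bd P + 1) S o) (vS D (bd P + 1) S Z o) o))))

/-- The new state. -/
def nextF (D : LD) (P : List Ins) (x : ℕ) : ℕ :=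
  ifz (okN (πO (hd x))) 1 (ifz (pO (hd x))
    (ifz (l3 (tl x % 4)) (sto (accF P 0) 1 (nO (hd x)) 0 (Nat.pair (πO (hd x)) 0))
      (sto 0 0 (nO (hd x) + 1) 0 (Nat.pair (πO (hd x)) 0)))
    (selF (fun o x => nxS D P (hd x) (tl x) o) P (pO (hd x) - 1) x))

/-- The name of the block which is read by the instruction `o`. -/
def blG (m S : ℕ) (o : Option Ins) : ℕ :=
  ifz (isL o) 1 (ifz (lt01 (slN (πO S) (tO S) (uS m S o / bO (πO S))) (kO (πO S)))
    (2 * (uS m S o / bO (πO S) + 1) + 1) 1)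

/-- The name of the block which is read. -/
def blkF (P : List Ins) (S : ℕ) : ℕ :=
  ifz (pO S) 1 (selF (fun o S => blG (bd P + 1) S o) P (pO S - 1) S)

/-- The new content of the block with the number `X` and the content `C`, if `S` is the new state. -/
def wrG (S X C : ℕ) : ℕ :=
  ifz (mO S) C (ifz (eq01 (X / 2 - 1) ((Nat.unpair (mO S - 1)).1 / bO (πO S))) C
    (upB (πO S) (C - 1) (Nat.unpair (mO S - 1)).1 (Nat.unpair (mO S - 1)).2 + 1))

/-- The new contents. -/
def writeF (x : ℕ) : ℕ := wrG (hd x) (hd (tl x)) (tl (tl x))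

/-- The state at the start. -/
def startF (π : ℕ) : ℕ := ifz (okN π) 1 (sto 0 0 0 0 (Nat.pair π 0))

section

variable {α : Type} [Ctx α]

theorem ls_πO {S : α → ℕ} (hS : LS S) : LS (fun a => πO (S a)) := LS.unpair1 (ls_vO hS)

theorem ls_mO {S : α → ℕ} (hS : LS S) : LS (fun a => mO (S a)) :=
  LS.unpair1 (LS.unpair2 (ls_vO hS))

theorem ls_tO {S : α → ℕ} (hS : LS S) : LS (fun a => tO (S a)) :=
  LS.unpair2 (LS.unpair2 (ls_vO hS))

theorem ls_vS (D : LD) (m : ℕ) (o : Option Ins) {S Z : α → ℕ} (hS : LS S) (hZ : LS Z) :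
    LS (fun a => vS D m (S a) (Z a) o) := by
  have hu := ls_uS m o hS
  have h1 := ls_a1 o hu
  have h2 := ls_rdN (ls_πO hS) (ls_tO hS) hu (LS.sub (LS.div hZ (LS.const 16)) (LS.const 1))
  have h3 := ls_getV m (ls_uO hS) h1
  have h4 := D.ls_lt' (ls_nO hS) hu (ls_l3 (LS.mod hZ (LS.const 4)))
  have h5 := ls_l3 (LS.mod (LS.div hZ (LS.const 4)) (LS.const 4))
  exact LS.ifz (LS.const _) (LS.ifz (LS.lt01 h1 (LS.const _)) h2 h3)
    (LS.ifz (LS.const _) h4 h5)

theorem ls_slt {S u : α → ℕ} (hS : LS S) (hu : LS u) :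
    LS (fun a => lt01 (slN (πO (S a)) (tO (S a)) (u a / bO (πO (S a)))) (kO (πO (S a)))) := by
  have hp := ls_πO hS
  exact LS.lt01 (ls_slN hp (ls_tO hS) (LS.div hu (ls_bO hp))) (ls_kO hp)

theorem ls_tN (o : Option Ins) {S Z u v : α → ℕ} (hS : LS S) (hZ : LS Z) (hu : LS u)
    (hv : LS v) : LS (fun a => tN (S a) (Z a) (u a) (v a) o) := by
  have hp := ls_πO hS
  have ht := ls_tO hS
  exact LS.ifz (LS.const _) (LS.ifz (LS.const _) ht (ls_upT hp ht hu hv))
    (LS.ifz (ls_slt hS hu) (ls_insN hp ht (LS.div hu (ls_bO hp))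
      (LS.sub (LS.div hZ (LS.const 16)) (LS.const 1))) ht)

theorem ls_nxS (D : LD) (P : List Ins) (o : Option Ins) {S Z : α → ℕ} (hS : LS S)
    (hZ : LS Z) : LS (fun a => nxS D P (S a) (Z a) o) := by
  have hu := ls_uS (bd P + 1) o hS
  have hv := ls_vS D (bd P + 1) o hS hZ
  have hw := ls_valL o hu hv
  have hp := LS.sub (ls_pO hS) (LS.const 1)
  have h1 := ls_npc o (p := fun a => pO (S a) - 1) hp hu
  have h2 := ls_accF P h1
  have h3 := ls_setV (bd P + 1) (ls_uO hS) (ls_dst o hu) hw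
  have h5 := LS.add (ls_pair hu hv) (LS.const 1)
  exact LS.ifz (LS.lt01 (LS.add hw (LS.const 1)) (ls_qO (ls_πO hS))) (LS.const 1)
    (ls_sto h2 (LS.add h1 (LS.const 1)) (ls_nO hS) h3 (ls_pair (ls_πO hS)
      (ls_pair (LS.ifz (LS.const _) (LS.const 0) h5) (ls_tN o hS hZ hu hv))))

theorem ls_wrG {S X C : α → ℕ} (hS : LS S) (hX : LS X) (hC : LS C) :
    LS (fun a => wrG (S a) (X a) (C a)) := by
  have hm := ls_mO hS
  have hm0 := LS.sub hm (LS.const 1)
  have hm1 := LS.unpair1 hm0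
  have hm2 := LS.unpair2 hm0
  have h5 := ls_upB (ls_πO hS) (LS.sub hC (LS.const 1)) hm1 hm2
  exact LS.ifz hm hC (LS.ifz (LS.eq01 (LS.sub (LS.div hX (LS.const 2)) (LS.const 1))
    (LS.div hm1 (ls_bO (ls_πO hS)))) hC (LS.add h5 (LS.const 1)))

end

theorem ls_nextF (D : LD) (P : List Ins) : LS (nextF D P) := by
  have hh : LS (fun x : ℕ => hd x) := ls_hd
  have ht : LS (fun x : ℕ => tl x) := ls_tl
  have hp := ls_pO hh
  have hn := ls_nO hh
  have hq := ls_pair (ls_πO hh) (LS.const 0)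
  have g1 := ls_sto (LS.const (α := ℕ) (accF P 0)) (LS.const 1) hn (LS.const 0) hq
  have g2 := ls_sto (LS.const (α := ℕ) 0) (LS.const 0) (LS.add hn (LS.const 1)) (LS.const 0) hq
  have g3 := ls_l3 (LS.mod ht (LS.const 4))
  exact LS.ifz (ls_okN (ls_πO hh)) (LS.const 1) (LS.ifz hp (LS.ifz g3 g1 g2)
    (ls_selF (fun o => ls_nxS D P o hh ht) P (LS.sub hp (LS.const 1))))

theorem ls_blkF (P : List Ins) : LS (blkF P) := by
  have hi : LS (fun x : ℕ => x) := LS.id
  have hp := ls_pO hi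
  refine LS.ifz hp (LS.const 1) (ls_selF (fun o => ?_) P (LS.sub hp (LS.const 1)))
  have hu := ls_uS (bd P + 1) o hi
  exact LS.ifz (LS.const _) (LS.const 1) (LS.ifz (ls_slt hi hu)
    (LS.add (LS.mul (LS.const 2) (LS.add (LS.div hu (ls_bO (ls_πO hi))) (LS.const 1)))
      (LS.const 1)) (LS.const 1))

theorem ls_writeF : LS writeF := by
  have hh : LS (fun x : ℕ => hd x) := ls_hd
  have ht : LS (fun x : ℕ => tl x) := ls_tl
  have h2 : LS (fun x : ℕ => tl (tl x)) := LS.comp (g := tl) ls_tl ht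
  have h3 : LS (fun x : ℕ => hd (tl x)) := LS.comp (g := hd) ls_hd ht
  exact ls_wrG hh h3 h2

theorem ls_startF : LS startF := by
  have hi : LS (fun x : ℕ => x) := LS.id
  exact LS.ifz (ls_okN hi) (LS.const 1) (ls_sto (LS.const 0) (LS.const 0) (LS.const 0)
    (LS.const 0) (ls_pair hi (LS.const 0)))

/-- The machine which runs the program. -/
noncomputable def mach (D : LD) (P : List Ins) : BM where
  start := wf startF
  addr := wf (Pool.Agent.Helper81.RR.addrF D P)
  blk := wf (blkF P)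
  next := wf (nextF D P)
  write := wf writeF
  start_lin := linComp_wf ls_startF
  addr_lin := linComp_wf (Pool.Agent.Helper81.RR.ls_addrF D P)
  blk_lin := linComp_wf (ls_blkF P)
  next_lin := linComp_wf (ls_nextF D P)
  write_lin := linComp_wf ls_writeF

end Pool.Agent.Helper81.IC
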