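import Pool.Agent.Helper81.IC.Tab

/-!
# The tables of the cache and of the lines
-/

set_option autoImplicit false

namespace Pool.Agent.Helper81.IC

open Pool.Agent.Helper65.LinSpace Finset
open Pool.Agent.Helper31.SusD (lst lst_le lst_eq lst_spec lst_ne)
open Pool.Agent.Helper81.RR (getV)

section

variable {π : ℕ} {cl : List ℕ} {M : ℕ → ℕ}

theorem qO_pos (hπ : okN π ≠ 0) : 1 < qO π := ((okN_iff π).1 hπ).1

theorem bO_pos (hπ : okN π ≠ 0) : 0 < bO π := ((okN_iff π).1 hπ).2.1

theorem kO_pos (hπ : okN π ≠ 0) : 0 < kO π := ((okN_iff π).1 hπ).2.2.1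

theorem cd_lt (hπ : okN π ≠ 0) (hcl : ∀ j ∈ cl, j + 1 < qO π) (hM : ∀ j, M j < qO π) (B i : ℕ) :
    cd B cl M i < qO π := by
  unfold cd
  have h0 := qO_pos hπ
  rcases h : cl[i / (B + 1)]? with _ | j
  · show 0 < qO π
    omega
  · show (if i % (B + 1) = 0 then j + 1 else M (j * B + (i % (B + 1) - 1))) < qO π
    split_ifs
    · exact hcl j (List.mem_of_getElem? h)
    · exact hM _

theorem dig_cT (hπ : okN π ≠ 0) (hcl : ∀ j ∈ cl, j + 1 < qO π) (hM : ∀ j, M j < qO π) {i : ℕ}
    (hi : i < kO π * (bO π + 1)) : dig (qO π) (cT π cl M) i = cd (bO π) cl M i :=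
  dig_tab (fun _ _ => cd_lt hπ hcl hM _ _) hi

theorem dig_cB (hM : ∀ j, M j < qO π) (j : ℕ) {r : ℕ} (hr : r < bO π) :
    dig (qO π) (cB π j M) r = M (j * bO π + r) :=
  dig_tab (d := fun r => M (j * bO π + r)) (fun _ _ => hM _) hr

theorem slot_lt {κ B i r : ℕ} (hi : i < κ) (hr : r < B + 1) : i * (B + 1) + r < κ * (B + 1) := by
  calc i * (B + 1) + r < i * (B + 1) + (B + 1) := by omega
    _ = (i + 1) * (B + 1) := by ring
    _ ≤ κ * (B + 1) := Nat.mul_le_mul_right _ hi

theorem slot_div {B i r : ℕ} (hr : r < B + 1) : (i * (B + 1) + r) / (B + 1) = i := by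
  rw [Nat.add_comm, Nat.add_mul_div_right _ _ (Nat.succ_pos _), Nat.div_eq_of_lt hr, zero_add]

theorem slot_mod {B i r : ℕ} (hr : r < B + 1) : (i * (B + 1) + r) % (B + 1) = r := by
  rw [Nat.add_comm, Nat.add_mul_mod_self_right, Nat.mod_eq_of_lt hr]

/-- The digit with the number `r` of the slot `i`. -/
theorem cd_slot (B : ℕ) (cl : List ℕ) (M : ℕ → ℕ) (i : ℕ) {r : ℕ} (hr : r < B + 1) :
    cd B cl M (i * (B + 1) + r) = match cl[i]? with
      | none => 0
      | some j => if r = 0 then j + 1 else M (j * B + (r - 1)) := by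
  unfold cd
  rw [slot_div hr, slot_mod hr]
  rcases cl[i]? with _ | j <;> rfl

theorem cd_none {B : ℕ} {cl : List ℕ} (M : ℕ → ℕ) {i : ℕ} (h : cl[i / (B + 1)]? = none) :
    cd B cl M i = 0 := by
  unfold cd
  rw [h]

theorem cd_some {B : ℕ} {cl : List ℕ} (M : ℕ → ℕ) {i j : ℕ} (h : cl[i / (B + 1)]? = some j) :
    cd B cl M i = if i % (B + 1) = 0 then j + 1 else M (j * B + (i % (B + 1) - 1)) := by
  unfold cd
  rw [h]

theorem dig_tag (hπ : okN π ≠ 0) (hcl : ∀ j ∈ cl, j + 1 < qO π) (hM : ∀ j, M j < qO π) {i : ℕ}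
    (hi : i < kO π) : dig (qO π) (cT π cl M) (i * (bO π + 1)) = match cl[i]? with
      | none => 0
      | some j => j + 1 := by
  have h := slot_lt (B := bO π) hi (Nat.succ_pos (bO π))
  rw [add_zero] at h
  rw [dig_cT hπ hcl hM h]
  have h2 := cd_slot (bO π) cl M i (Nat.succ_pos (bO π))
  rw [add_zero] at h2
  rw [h2]
  rcases cl[i]? with _ | j
  · rfl
  · rfl

theorem eq01_ne {x y : ℕ} : eq01 x y ≠ 0 ↔ x = y := by
  unfold eq01
  split_ifs with h <;> simp [h]

theorem slN_mem (hπ : okN π ≠ 0) (hlen : cl.length ≤ kO π) (hcl : ∀ j ∈ cl, j + 1 < qO π)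
    (hM : ∀ j, M j < qO π) {j : ℕ} (hj : j ∈ cl) :
    slN π (cT π cl M) j < kO π ∧ cl[slN π (cT π cl M) j]? = some j := by
  obtain ⟨i, hi, hij⟩ := List.mem_iff_getElem.1 hj
  have hi' : i < kO π := hi.trans_le hlen
  have hp : eq01 (dig (qO π) (cT π cl M) (i * (bO π + 1))) (j + 1) ≠ 0 := by
    rw [eq01_ne, dig_tag hπ hcl hM hi', List.getElem?_eq_getElem hi, hij]
  obtain ⟨h1, h2⟩ := lst_spec (p := fun i => eq01 (dig (qO π) (cT π cl M) (i * (bO π + 1))) (j + 1))
    hi' hp
  have h3 : slN π (cT π cl M) j < kO π := h2.trans_lt hi'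
  refine ⟨h3, ?_⟩
  have h4 : dig (qO π) (cT π cl M) (slN π (cT π cl M) j * (bO π + 1)) = j + 1 := eq01_ne.1 h1
  rw [dig_tag hπ hcl hM h3] at h4
  rcases h5 : cl[slN π (cT π cl M) j]? with _ | j'
  · rw [h5] at h4
    exact absurd h4 (Nat.succ_ne_zero _).symm
  · rw [h5] at h4
    have h6 : j' + 1 = j + 1 := h4
    rw [Nat.succ.inj h6]

theorem slN_not (hπ : okN π ≠ 0) (hcl : ∀ j ∈ cl, j + 1 < qO π) (hM : ∀ j, M j < qO π) {j : ℕ}
    (hj : j ∉ cl) : ¬slN π (cT π cl M) j < kO π := by
  intro h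
  have h1 := lst_ne (p := fun i => eq01 (dig (qO π) (cT π cl M) (i * (bO π + 1))) (j + 1)) h
  have h2 : dig (qO π) (cT π cl M) (slN π (cT π cl M) j * (bO π + 1)) = j + 1 := eq01_ne.1 h1
  rw [dig_tag hπ hcl hM h] at h2
  rcases h5 : cl[slN π (cT π cl M) j]? with _ | j'
  · rw [h5] at h2
    exact absurd h2 (Nat.succ_ne_zero _).symm
  · rw [h5] at h2
    have h6 : j' + 1 = j + 1 := h2
    rw [Nat.succ.inj h6] at h5
    exact hj (List.mem_of_getElem? h5)

theorem frN_eq (hπ : okN π ≠ 0) (hlen : cl.length ≤ kO π) (hcl : ∀ j ∈ cl, j + 1 < qO π)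
    (hM : ∀ j, M j < qO π) : frN π (cT π cl M) = cl.length := by
  refine lst_eq hlen (fun i hi => ?_) fun h => ?_
  · by_contra h1
    have h2 := eq01_ne.1 h1
    rw [dig_tag hπ hcl hM (hi.trans_le hlen), List.getElem?_eq_getElem hi] at h2
    exact absurd h2 (Nat.succ_ne_zero _)
  · rw [eq01_ne, dig_tag hπ hcl hM h, List.getElem?_eq_none le_rfl]

theorem lt01_eq {x y : ℕ} (h : x < y) : lt01 x y = 1 := by
  unfold lt01
  rw [if_pos h]

theorem lt01_zero {x y : ℕ} (h : ¬x < y) : lt01 x y = 0 := by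
  unfold lt01
  rw [if_neg h]

/-- **A line is brought into the cache.** -/
theorem insN_eq (hπ : okN π ≠ 0) (hlen : cl.length ≤ kO π) (hcl : ∀ j ∈ cl, j + 1 < qO π)
    (hM : ∀ j, M j < qO π) {j : ℕ} (hj : j + 1 < qO π) :
    insN π (cT π cl M) j (cB π j M) =
      cT π (if cl.length < kO π then cl ++ [j] else [j]) M := by
  have hB := Nat.succ_pos (bO π)
  unfold insN
  refine tabT_eq hπ (fun i hi => ?_) fun i => cd_lt hπ ?_ hM _ i
  · have hik : i / (bO π + 1) < kO π := (Nat.div_lt_iff_lt_mul hB).2 hi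
    have hir : i % (bO π + 1) < bO π + 1 := Nat.mod_lt _ hB
    have hfr := frN_eq hπ hlen hcl hM
    unfold i0N
    rw [hfr]
    have hnew : ifz (i % (bO π + 1)) (j + 1) (dig (qO π) (cB π j M) (i % (bO π + 1) - 1)) =
        if i % (bO π + 1) = 0 then j + 1 else M (j * bO π + (i % (bO π + 1) - 1)) := by
      by_cases h0 : i % (bO π + 1) = 0
      · rw [h0, ifz_zero, if_pos rfl]
      · rw [ifz_ne h0, if_neg h0, dig_cB hM j (by omega)]
    rw [hnew]
    by_cases hl : cl.length < kO π
    · rw [lt01_eq hl, ifz_ne one_ne_zero, if_pos hl, ifz_ne one_ne_zero]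
      unfold cd
      by_cases h1 : i / (bO π + 1) = cl.length
      · rw [h1, show eq01 cl.length cl.length = 1 from if_pos rfl, ifz_ne one_ne_zero]
        have h2 : (cl ++ [j])[cl.length]? = some j := by simp
        rw [h2]
      · have h2 : eq01 (i / (bO π + 1)) cl.length = 0 := if_neg h1
        rw [h2, ifz_zero, dig_cT hπ hcl hM hi]
        unfold cd
        have h3 : (cl ++ [j])[i / (bO π + 1)]? = cl[i / (bO π + 1)]? := by
          rcases Nat.lt_or_ge (i / (bO π + 1)) cl.length with h4 | h4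
          · rw [List.getElem?_append_left h4]
          · rw [List.getElem?_eq_none h4, List.getElem?_eq_none]
            rw [List.length_append, List.length_singleton]
            omega
        rw [h3]
    · rw [lt01_zero hl, ifz_zero, if_neg hl, ifz_zero]
      unfold cd
      by_cases h1 : i / (bO π + 1) = 0
      · rw [h1, show eq01 0 0 = 1 from if_pos rfl, ifz_ne one_ne_zero]
        rfl
      · have h2 : eq01 (i / (bO π + 1)) 0 = 0 := if_neg h1
        have h3 : ([j] : List ℕ)[i / (bO π + 1)]? = none := by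
          rw [List.getElem?_eq_none]
          rw [List.length_singleton]
          exact Nat.pos_of_ne_zero h1
        rw [h2, ifz_zero, h3]
  · intro j' hj'
    by_cases hl : cl.length < kO π
    · rw [if_pos hl, List.mem_append, List.mem_singleton] at hj'
      rcases hj' with h | h
      · exact hcl j' h
      · rw [h]
        exact hj
    · rw [if_neg hl, List.mem_singleton] at hj'
      rw [hj']
      exact hj

/-- **A register is changed**, in the cache. -/
theorem upT_eq (hπ : okN π ≠ 0) (_hlen : cl.length ≤ kO π) (hcl : ∀ j ∈ cl, j + 1 < qO π)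
    (hM : ∀ j, M j < qO π) (z : ℕ) {v : ℕ} (hv : v < qO π) :
    upT π (cT π cl M) z v = cT π cl (Function.update M z v) := by
  have hB := Nat.succ_pos (bO π)
  have hb := bO_pos hπ
  have hM' : ∀ j, Function.update M z v j < qO π := by
    intro j
    by_cases h : j = z
    · rw [h, Function.update_self]
      exact hv
    · rw [Function.update_of_ne h]
      exact hM j
  unfold upT
  refine tabT_eq hπ (fun i hi => ?_) fun i => cd_lt hπ hcl hM' _ i
  have hik : i / (bO π + 1) < kO π := (Nat.div_lt_iff_lt_mul hB).2 hi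
  have hir : i % (bO π + 1) < bO π + 1 := Nat.mod_lt _ hB
  rw [dig_cT hπ hcl hM hi]
  have htag := dig_tag hπ hcl hM hik
  rcases h : cl[i / (bO π + 1)]? with _ | j
  · rw [h] at htag
    dsimp only at htag
    rw [htag, cd_none M h, cd_none _ h,
      show eq01 0 (z / bO π + 1) = 0 from if_neg (Nat.succ_ne_zero _).symm, ifz_zero]
  · rw [h] at htag
    dsimp only at htag
    rw [htag, cd_some M h, cd_some _ h]
    by_cases h0 : i % (bO π + 1) = 0
    · rw [h0, if_pos rfl, if_pos rfl, ifz_zero]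
      unfold ifz
      split_ifs <;> rfl
    · rw [if_neg h0, if_neg h0, ifz_ne h0]
      have hr : i % (bO π + 1) - 1 < bO π := by omega
      set r := i % (bO π + 1) - 1 with hrdef
      by_cases hz : j * bO π + r = z
      · have hj : z / bO π = j := by
          rw [← hz, Nat.add_comm, Nat.add_mul_div_right _ _ hb, Nat.div_eq_of_lt hr, zero_add]
        have hrr : z % bO π = r := by
          rw [← hz, Nat.add_comm, Nat.add_mul_mod_self_right, Nat.mod_eq_of_lt hr]
        rw [hj, hrr, show eq01 (j + 1) (j + 1) = 1 from if_pos rfl, ifz_ne one_ne_zero,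
          show eq01 r r = 1 from if_pos rfl, ifz_ne one_ne_zero, hz, Function.update_self]
      · rw [Function.update_of_ne hz]
        by_cases hj : eq01 (j + 1) (z / bO π + 1) = 0
        · rw [hj, ifz_zero]
        · rw [ifz_ne hj]
          have hj' : j = z / bO π := Nat.succ.inj (eq01_ne.1 hj)
          have h2 : eq01 r (z % bO π) = 0 := by
            refine if_neg fun h3 => hz ?_
            rw [hj', h3]
            exact Nat.div_add_mod' _ _
          rw [h2, ifz_zero]

/-- **A register is changed**, in its line. -/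
theorem upB_eq (hπ : okN π ≠ 0) (hM : ∀ j, M j < qO π) {z v : ℕ} (hv : v < qO π) :
    upB π (cB π (z / bO π) M) z v = cB π (z / bO π) (Function.update M z v) := by
  have hb := bO_pos hπ
  unfold upB
  refine tabB_eq hπ (fun r hr => ?_) fun r => ?_
  · rw [dig_cB hM _ hr]
    by_cases h : r = z % bO π
    · rw [show eq01 r (z % bO π) = 1 from if_pos h, ifz_ne one_ne_zero, h, Nat.div_add_mod',
        Function.update_self]
    · rw [show eq01 r (z % bO π) = 0 from if_neg h, ifz_zero, Function.update_of_ne]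
      intro h2
      apply h
      rw [← h2, Nat.add_comm, Nat.add_mul_mod_self_right, Nat.mod_eq_of_lt hr]
  · by_cases h : z / bO π * bO π + r = z
    · rw [h, Function.update_self]
      exact hv
    · rw [Function.update_of_ne h]
      exact hM _

theorem cB_update (hπ : okN π ≠ 0) {z v j : ℕ} (hj : j ≠ z / bO π) :
    cB π j (Function.update M z v) = cB π j M := by
  have hb := bO_pos hπ
  unfold cB
  refine tab_congr fun r hr => ?_
  rw [Function.update_of_ne]
  intro h
  apply hj
  rw [← h, Nat.add_comm, Nat.add_mul_div_right _ _ hb, Nat.div_eq_of_lt hr, zero_add]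

/-- **A register is read.** -/
theorem rdN_eq (hπ : okN π ≠ 0) (hlen : cl.length ≤ kO π) (hcl : ∀ j ∈ cl, j + 1 < qO π)
    (hM : ∀ j, M j < qO π) {z L : ℕ} (h : z / bO π ∉ cl → L = cB π (z / bO π) M) :
    rdN π (cT π cl M) z L = M z := by
  have hb := bO_pos hπ
  have hr := Nat.mod_lt z hb
  unfold rdN
  by_cases hz : z / bO π ∈ cl
  · obtain ⟨h1, h2⟩ := slN_mem hπ hlen hcl hM hz
    rw [lt01_eq h1, ifz_ne one_ne_zero, Nat.add_assoc, dig_cT hπ hcl hM (slot_lt h1 (by omega)),
      cd_slot _ _ _ _ (by omega), h2]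
    show (if 1 + z % bO π = 0 then z / bO π + 1 else M (z / bO π * bO π + (1 + z % bO π - 1))) = M z
    rw [if_neg (by omega), Nat.add_sub_cancel_left, Nat.div_add_mod']
  · rw [lt01_zero (slN_not hπ hcl hM hz), ifz_zero, h hz, dig_cB hM _ hr, Nat.div_add_mod']

end

end Pool.Agent.Helper81.IC
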