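import Pool.Agent.Helper81.RR.Sim
import Pool.Agent.Helper31.SusD.Grd

/-!
# Tables of digits with a parameter

A parameter is a number which codes the base `Q` of the digits, the number `B` of the registers in a
line, the number `κ` of the slots of the cache, and a large number.
-/

set_option autoImplicit false

namespace Pool.Agent.Helper81.IC

open Pool.Agent.Helper65.LinSpace Finset
open Pool.Agent.Helper31.SusD (lst lst_le lst_eq lst_spec lst_ne)

/-- The base of the digits. -/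
def qO (π : ℕ) : ℕ := (Nat.unpair π).1

/-- The number of the registers in a line. -/
def bO (π : ℕ) : ℕ := (Nat.unpair (Nat.unpair π).2).1

/-- The number of the slots of the cache. -/
def kO (π : ℕ) : ℕ := (Nat.unpair (Nat.unpair (Nat.unpair π).2).2).1

/-- The large number. -/
def rO (π : ℕ) : ℕ := (Nat.unpair (Nat.unpair (Nat.unpair π).2).2).2

/-- The code of a parameter. -/
def par (Q B κ R : ℕ) : ℕ := Nat.pair Q (Nat.pair B (Nat.pair κ R))

theorem qO_par (Q B κ R : ℕ) : qO (par Q B κ R) = Q := by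
  unfold qO par
  rw [Nat.unpair_pair]

theorem bO_par (Q B κ R : ℕ) : bO (par Q B κ R) = B := by
  unfold bO par
  rw [Nat.unpair_pair, Nat.unpair_pair]

theorem kO_par (Q B κ R : ℕ) : kO (par Q B κ R) = κ := by
  unfold kO par
  rw [Nat.unpair_pair, Nat.unpair_pair, Nat.unpair_pair]

theorem rO_par (Q B κ R : ℕ) : rO (par Q B κ R) = R := by
  unfold rO par
  rw [Nat.unpair_pair, Nat.unpair_pair, Nat.unpair_pair]

/-- Test for parameters. -/
def okN (π : ℕ) : ℕ := lt01 1 (qO π) * (lt01 0 (bO π) * (lt01 0 (kO π) *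
  le01 (capPow (qO π) (kO π * (bO π + 1)) (rO π)) (rO π)))

theorem okN_iff (π : ℕ) : okN π ≠ 0 ↔
    1 < qO π ∧ 0 < bO π ∧ 0 < kO π ∧ qO π ^ (kO π * (bO π + 1)) ≤ rO π := by
  have h : capPow (qO π) (kO π * (bO π + 1)) (rO π) ≤ rO π ↔
      qO π ^ (kO π * (bO π + 1)) ≤ rO π := by
    unfold capPow
    rw [min_le_iff]
    omega
  unfold okN lt01 le01
  rw [← h]
  split_ifs <;> simp_all

/-- The number of the digits of the cache. -/
def mT (π : ℕ) : ℕ := ifz (okN π) 0 (kO π * (bO π + 1))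

/-- The number of the digits of a line. -/
def mB (π : ℕ) : ℕ := ifz (okN π) 0 (bO π)

/-- Tables with the size of the cache. -/
def tabT (π : ℕ) (d : ℕ → ℕ) : ℕ := tab (qO π) (mT π) fun i => d i % qO π

/-- Tables with the size of a line. -/
def tabB (π : ℕ) (d : ℕ → ℕ) : ℕ := tab (qO π) (mB π) fun i => d i % qO π

theorem mB_le (π : ℕ) : mB π ≤ mT π := by
  unfold mB mT
  by_cases h : okN π = 0
  · rw [h, ifz_zero, ifz_zero]
  · rw [ifz_ne h, ifz_ne h]
    obtain ⟨_, _, h1, _⟩ := (okN_iff π).1 h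
    calc bO π ≤ bO π + 1 := Nat.le_succ _
      _ ≤ kO π * (bO π + 1) := Nat.le_mul_of_pos_left _ h1

theorem qO_of_mT {π i : ℕ} (h : i < mT π) : 1 < qO π := by
  by_contra hcon
  have h1 : okN π = 0 := by
    by_contra h2
    exact hcon ((okN_iff π).1 h2).1
  unfold mT at h
  rw [h1, ifz_zero] at h
  exact Nat.not_lt_zero _ h

theorem pow_mT (π : ℕ) : qO π ^ mT π ≤ rO π + 1 := by
  unfold mT
  by_cases h : okN π = 0
  · rw [h, ifz_zero, pow_zero]
    omega
  · rw [ifz_ne h]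
    exact ((okN_iff π).1 h).2.2.2.trans (Nat.le_succ _)

theorem pow_mB (π : ℕ) : qO π ^ mB π ≤ rO π + 1 := by
  rcases Nat.eq_zero_or_pos (mT π) with h | h
  · have h1 : mB π = 0 := by
      have := mB_le π
      omega
    rw [h1, pow_zero]
    omega
  · exact (Nat.pow_le_pow_right (by have := qO_of_mT h; omega) (mB_le π)).trans (pow_mT π)

section

variable {α : Type} [Ctx α]

theorem ls_qO {π : α → ℕ} (h : LS π) : LS (fun a => qO (π a)) := LS.unpair1 h

theorem ls_bO {π : α → ℕ} (h : LS π) : LS (fun a => bO (π a)) := LS.unpair1 (LS.unpair2 h)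

theorem ls_kO {π : α → ℕ} (h : LS π) : LS (fun a => kO (π a)) :=
  LS.unpair1 (LS.unpair2 (LS.unpair2 h))

theorem ls_rO {π : α → ℕ} (h : LS π) : LS (fun a => rO (π a)) :=
  LS.unpair2 (LS.unpair2 (LS.unpair2 h))

theorem ls_okN {π : α → ℕ} (h : LS π) : LS (fun a => okN (π a)) := by
  have h1 := ls_qO h
  have h2 := ls_bO h
  have h3 := ls_kO h
  have h4 := ls_rO h
  exact LS.mul (LS.lt01 (LS.const 1) h1) (LS.mul (LS.lt01 (LS.const 0) h2)
    (LS.mul (LS.lt01 (LS.const 0) h3)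
      (LS.le01 (LS.capPow h1 (LS.mul h3 (LS.add h2 (LS.const 1))) h4) h4)))

theorem ls_mT {π : α → ℕ} (h : LS π) : LS (fun a => mT (π a)) :=
  LS.ifz (ls_okN h) (LS.const 0) (LS.mul (ls_kO h) (LS.add (ls_bO h) (LS.const 1)))

theorem ls_mB {π : α → ℕ} (h : LS π) : LS (fun a => mB (π a)) :=
  LS.ifz (ls_okN h) (LS.const 0) (ls_bO h)

theorem ls_fst {f : α → ℕ} (h : LS f) : LS (fun z : α × ℕ => f z.1) :=
  LS.comp (g := f) h LS.fst

theorem ls_tabT {π : α → ℕ} {d : α → ℕ → ℕ} (h : LS π) (hd : LS (fun z : α × ℕ => d z.1 z.2)) :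
    LS (fun a => tabT (π a) (d a)) := by
  unfold tabT
  exact LS.tab (d := fun a i => d a i % qO (π a)) (q := fun a => qO (π a))
    (m := fun a => mT (π a)) (C := fun a => rO (π a) + 1) (LS.mod hd (ls_fst (ls_qO h)))
    (ls_qO h) (ls_mT h) (LS.add (ls_rO h) (LS.const 1))
    (fun a i hi => Nat.mod_lt _ (by have := qO_of_mT hi; omega)) fun a => pow_mT _

theorem ls_tabB {π : α → ℕ} {d : α → ℕ → ℕ} (h : LS π) (hd : LS (fun z : α × ℕ => d z.1 z.2)) :
    LS (fun a => tabB (π a) (d a)) := by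
  unfold tabB
  exact LS.tab (d := fun a i => d a i % qO (π a)) (q := fun a => qO (π a))
    (m := fun a => mB (π a)) (C := fun a => rO (π a) + 1) (LS.mod hd (ls_fst (ls_qO h)))
    (ls_qO h) (ls_mB h) (LS.add (ls_rO h) (LS.const 1))
    (fun a i hi => Nat.mod_lt _ (by have := qO_of_mT (hi.trans_le (mB_le _)); omega))
    fun a => pow_mB _

end

/-! ### Tables with small digits -/

theorem tabT_eq {π : ℕ} (hπ : okN π ≠ 0) {d e : ℕ → ℕ}
    (h : ∀ i < kO π * (bO π + 1), d i = e i) (he : ∀ i, e i < qO π) :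
    tabT π d = tab (qO π) (kO π * (bO π + 1)) e := by
  unfold tabT mT
  rw [ifz_ne hπ]
  refine tab_congr fun i hi => ?_
  rw [h i hi, Nat.mod_eq_of_lt (he i)]

theorem tabB_eq {π : ℕ} (hπ : okN π ≠ 0) {d e : ℕ → ℕ}
    (h : ∀ i < bO π, d i = e i) (he : ∀ i, e i < qO π) :
    tabB π d = tab (qO π) (bO π) e := by
  unfold tabB mB
  rw [ifz_ne hπ]
  refine tab_congr fun i hi => ?_
  rw [h i hi, Nat.mod_eq_of_lt (he i)]

/-! ### The cache -/

/-- The digits of the cache which contains the lines `cl`, if the memory is `M`. -/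
def cd (B : ℕ) (cl : List ℕ) (M : ℕ → ℕ) (i : ℕ) : ℕ :=
  match cl[i / (B + 1)]? with
  | none => 0
  | some j => if i % (B + 1) = 0 then j + 1 else M (j * B + (i % (B + 1) - 1))

/-- The code of the cache. -/
def cT (π : ℕ) (cl : List ℕ) (M : ℕ → ℕ) : ℕ := tab (qO π) (kO π * (bO π + 1)) (cd (bO π) cl M)

/-- The code of a line. -/
def cB (π j : ℕ) (M : ℕ → ℕ) : ℕ := tab (qO π) (bO π) fun r => M (j * bO π + r)

/-- The number of the slot which contains the line `j`. -/
def slN (π T j : ℕ) : ℕ := lst (kO π) fun i => eq01 (dig (qO π) T (i * (bO π + 1))) (j + 1)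

/-- The number of the first empty slot. -/
def frN (π T : ℕ) : ℕ := lst (kO π) fun i => eq01 (dig (qO π) T (i * (bO π + 1))) 0

/-- The slot for a new line. -/
def i0N (π T : ℕ) : ℕ := ifz (lt01 (frN π T) (kO π)) 0 (frN π T)

/-- The line `j` with the code `L` is brought into the cache. -/
def insN (π T j L : ℕ) : ℕ := tabT π fun i => ifz (eq01 (i / (bO π + 1)) (i0N π T))
  (ifz (lt01 (frN π T) (kO π)) 0 (dig (qO π) T i))
  (ifz (i % (bO π + 1)) (j + 1) (dig (qO π) L (i % (bO π + 1) - 1)))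

/-- The register `z` of the cache gets the content `v`. -/
def upT (π T z v : ℕ) : ℕ := tabT π fun i =>
  ifz (eq01 (dig (qO π) T (i / (bO π + 1) * (bO π + 1))) (z / bO π + 1)) (dig (qO π) T i)
    (ifz (i % (bO π + 1)) (dig (qO π) T i)
      (ifz (eq01 (i % (bO π + 1) - 1) (z % bO π)) (dig (qO π) T i) v))

/-- The register `z` of its line gets the content `v`. -/
def upB (π L z v : ℕ) : ℕ := tabB π fun r => ifz (eq01 r (z % bO π)) (dig (qO π) L r) v

/-- The content of the register `z`, if the line `z / B` is in the cache or has the code `L`. -/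
def rdN (π T z L : ℕ) : ℕ := ifz (lt01 (slN π T (z / bO π)) (kO π)) (dig (qO π) L (z % bO π))
  (dig (qO π) T (slN π T (z / bO π) * (bO π + 1) + 1 + z % bO π))

section

variable {α : Type} [Ctx α]

theorem eq01_le (x y : ℕ) : eq01 x y ≤ 1 := by
  unfold eq01
  split_ifs <;> omega

theorem ls_slN {π T j : α → ℕ} (h : LS π) (hT : LS T) (hj : LS j) :
    LS (fun a => slN (π a) (T a) (j a)) := by
  unfold slN
  exact Pool.Agent.Helper31.SusD.LS.lst (ls_kO h) (LS.eq01 (LS.dig (ls_fst (ls_qO h)) (ls_fst hT)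
    (LS.mul LS.snd (ls_fst (LS.add (ls_bO h) (LS.const 1))))) (ls_fst (LS.add hj (LS.const 1))))
    fun a m => eq01_le _ _

theorem ls_frN {π T : α → ℕ} (h : LS π) (hT : LS T) : LS (fun a => frN (π a) (T a)) := by
  unfold frN
  exact Pool.Agent.Helper31.SusD.LS.lst (ls_kO h) (LS.eq01 (LS.dig (ls_fst (ls_qO h)) (ls_fst hT)
    (LS.mul LS.snd (ls_fst (LS.add (ls_bO h) (LS.const 1))))) (LS.const 0))
    fun a m => eq01_le _ _

theorem ls_i0N {π T : α → ℕ} (h : LS π) (hT : LS T) : LS (fun a => i0N (π a) (T a)) := by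
  have h1 := ls_frN h hT
  exact LS.ifz (LS.lt01 h1 (ls_kO h)) (LS.const 0) h1

theorem ls_insN {π T j L : α → ℕ} (h : LS π) (hT : LS T) (hj : LS j) (hL : LS L) :
    LS (fun a => insN (π a) (T a) (j a) (L a)) := by
  have h1 := ls_fst (LS.add (ls_bO h) (LS.const 1))
  have h2 := ls_fst (ls_qO h)
  have h3 := LS.mod (LS.snd (α := α) (β := ℕ)) h1
  exact ls_tabT h (LS.ifz (LS.eq01 (LS.div LS.snd h1) (ls_fst (ls_i0N h hT)))
    (LS.ifz (ls_fst (LS.lt01 (ls_frN h hT) (ls_kO h))) (LS.const 0)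
      (LS.dig h2 (ls_fst hT) LS.snd))
    (LS.ifz h3 (ls_fst (LS.add hj (LS.const 1)))
      (LS.dig h2 (ls_fst hL) (LS.sub h3 (LS.const 1)))))

theorem ls_upT {π T z v : α → ℕ} (h : LS π) (hT : LS T) (hz : LS z) (hv : LS v) :
    LS (fun a => upT (π a) (T a) (z a) (v a)) := by
  have h1 := ls_fst (LS.add (ls_bO h) (LS.const 1))
  have h2 := ls_fst (ls_qO h)
  have h3 := LS.mod (LS.snd (α := α) (β := ℕ)) h1
  have h4 := LS.dig h2 (ls_fst hT) (LS.snd (α := α) (β := ℕ))
  exact ls_tabT h (LS.ifz (LS.eq01 (LS.dig h2 (ls_fst hT) (LS.mul (LS.div LS.snd h1) h1))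
    (ls_fst (LS.add (LS.div hz (ls_bO h)) (LS.const 1)))) h4
    (LS.ifz h3 h4 (LS.ifz (LS.eq01 (LS.sub h3 (LS.const 1)) (ls_fst (LS.mod hz (ls_bO h)))) h4
      (ls_fst hv))))

theorem ls_upB {π L z v : α → ℕ} (h : LS π) (hL : LS L) (hz : LS z) (hv : LS v) :
    LS (fun a => upB (π a) (L a) (z a) (v a)) :=
  ls_tabB h (LS.ifz (LS.eq01 LS.snd (ls_fst (LS.mod hz (ls_bO h))))
    (LS.dig (ls_fst (ls_qO h)) (ls_fst hL) LS.snd) (ls_fst hv))

theorem ls_rdN {π T z L : α → ℕ} (h : LS π) (hT : LS T) (hz : LS z) (hL : LS L) :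
    LS (fun a => rdN (π a) (T a) (z a) (L a)) := by
  have hb := ls_bO h
  have h1 := ls_slN h hT (LS.div hz hb)
  have h2 := LS.mod hz hb
  exact LS.ifz (LS.lt01 h1 (ls_kO h)) (LS.dig (ls_qO h) hL h2)
    (LS.dig (ls_qO h) hT (LS.add (LS.add (LS.mul h1 (LS.add hb (LS.const 1))) (LS.const 1)) h2))

end

end Pool.Agent.Helper81.IC
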