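import Pool.Agent.Helper81.IC.Good

/-!
# Programs of random access machines with a cache: the translation, with all its bounds

`translate`: an accepting run of a program with a cache is an accepting run of `mach D P`; `sound` (in
`IC/Sim.lean`) is the converse. `translate_time`: the same for programs without a cache, every load counts.
-/

set_option autoImplicit false

namespace Pool.Agent.Helper81.IC

open Pool.Agent.Helper65.LinSpace Pool.Agent.Helper78.Mpc Pool.Agent.Helper28.Ram
open Pool.Agent.Helper65.BR (BM)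
open Pool.Agent.Helper81.RP (Ins lett step AcceptsAt conf conf_succ wd num_wd uu accF_le bd
  wd_one length_wd_le pc_le pair_lt)
open Pool.Agent.Helper92.RE
open Pool.Agent.Helper81.RR (ld isL ld_eq msg_lt two_pow_gt tup_lt adN)

/-- The constant of the translation. -/
def cTr (P : List Ins) : ℕ := 9 * (8 * cK P + 1)

/-- **The translation of a program with a cache**, with all bounds. -/
theorem translate {D : LD} {F : List Bool → List Bool} (hF : D.Is F) (P : List Ins)
    {w y : List Bool} {t s b B k x : ℕ} (hle : w.length ≤ (F w).length)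
    (hls : Nat.log 2 (F w).length + 1 ≤ s) (hBpos : 0 < B) (hkpos : 0 < k)
    (hacc : AcceptsAt P (F w) y t)
    (hR : ∀ u ≤ t, ∀ i, (conf P (F w) y u).2 i < 2 ^ s)
    (hb : ∀ u ≤ t, ∀ z, ld P (conf P (F w) y u) = some z → z < 2 ^ b)
    (hserv : Served P (F w) y B k x t) :
    ∃ (p : List Bool) (r : ℕ), (mach D P).AcceptsAt w y p r ∧ p.length ≤ cTr P * (s * k * B) ∧
      (mach D P).Fits w y p r (cTr P * (s * k * B)) (b + 1) ((s + 1) * B) ∧
      (mach D P).reads w y p r ≤ 2 * x + 2 * k := by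
  have hs1 : 1 ≤ s := by omega
  have hn : w.length < 2 ^ s := by
    refine hle.trans_lt ((Nat.lt_pow_succ_log_self (b := 2) (by norm_num) _).trans_le ?_)
    exact Nat.pow_le_pow_right (by norm_num) hls
  obtain ⟨e, he⟩ : ∃ e, e = (s + 1) * (2 * k * (B + 1)) + 1 := ⟨_, rfl⟩
  obtain ⟨π, hπd⟩ : ∃ π, π = par (2 ^ s + 1) B (2 * k) ((2 ^ s + 1) ^ (2 * k * (B + 1))) :=
    ⟨_, rfl⟩
  have hQ : qO π = 2 ^ s + 1 := by rw [hπd, qO_par]
  have hBO : bO π = B := by rw [hπd, bO_par]
  have hKO : kO π = 2 * k := by rw [hπd, kO_par]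
  have hRO : rO π = (2 ^ s + 1) ^ (2 * k * (B + 1)) := by rw [hπd, rO_par]
  have hok : okN π ≠ 0 := by
    rw [okN_iff, hQ, hBO, hKO, hRO]
    have := Nat.two_pow_pos s
    exact ⟨by omega, hBpos, by omega, le_rfl⟩
  have hQ2 : 2 ^ s + 1 ≤ 2 ^ (s + 1) := by
    rw [pow_succ]
    have := Nat.two_pow_pos s
    omega
  have hR1 : (2 ^ s + 1) ^ (2 * k * (B + 1)) ≤ 2 ^ ((s + 1) * (2 * k * (B + 1))) :=
    (Nat.pow_le_pow_left hQ2 _).trans (le_of_eq (pow_mul _ _ _).symm)
  have hRe : (2 ^ s + 1) ^ (2 * k * (B + 1)) < 2 ^ e := by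
    rw [he]
    exact hR1.trans_lt (Nat.pow_lt_pow_right (by norm_num) (Nat.lt_succ_self _))
  have hk2 : 1 ≤ 2 * k * (B + 1) := Nat.mul_pos (by omega) (Nat.succ_pos _)
  have hkB : 2 * k ≤ 2 * k * (B + 1) := Nat.le_mul_of_pos_right _ (Nat.succ_pos _)
  have hkB2 : B + 1 ≤ 2 * k * (B + 1) := Nat.le_mul_of_pos_left _ (by omega)
  have hse1 : 2 * k * (B + 1) ≤ (s + 1) * (2 * k * (B + 1)) :=
    Nat.le_mul_of_pos_left _ (Nat.succ_pos _)
  have hse2 : s + 1 ≤ (s + 1) * (2 * k * (B + 1)) := Nat.le_mul_of_pos_right _ hk2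
  have he2 : e < 2 ^ e := Nat.lt_two_pow_self
  have hpe : π < 2 ^ (8 * e) := by
    have h1 : 2 ^ s + 1 < 2 ^ e :=
      hQ2.trans_lt (Nat.pow_lt_pow_right (by norm_num) (by omega))
    have h2 : B < 2 ^ e := by omega
    have h3 : 2 * k < 2 ^ e := by omega
    have h4 := pair_lt h3 hRe
    have h5 : 2 ^ e ≤ 2 ^ (2 * e) := Nat.pow_le_pow_right (by norm_num) (by omega)
    have h6 := pair_lt (h2.trans_le h5) h4
    have h7 : 2 ^ e ≤ 2 ^ (2 * (2 * e)) := Nat.pow_le_pow_right (by norm_num) (by omega)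
    have h8 := pair_lt (h1.trans_le h7) h6
    rw [hπd]
    unfold par
    rwa [show 8 * e = 2 * (2 * (2 * e)) by ring]
  have hπ0 : 0 < π := by
    rcases Nat.eq_zero_or_pos π with h | h
    · rw [h] at hok
      exact absurd rfl hok
    · exact h
  have hnum : num (wd π) = π := num_wd hπ0
  have hok' : okN (num (wd π)) ≠ 0 := by
    rw [hnum]
    exact hok
  have hal : Alive P (F w) y (qO (num (wd π))) t := by
    intro u hu i
    rw [hnum, hQ]
    exact Nat.add_lt_add_right (hR u hu i) 1
  have hreads : (mach D P).reads w y (wd π) (w.length + 1 + t) ≤ 2 * x + 2 * k := by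
    have h1 := reads_mach (D := D) hF hok' hal
    rw [hnum, hBO, hKO] at h1
    exact h1.trans (ms_le hkpos hserv)
  have hfits := fits_mach (D := D) hF (w := w) (y := y) (p := wd π) (t := t) (s := s) (b := b)
    (e := e) hok' hs1 hn (by rw [hnum, hQ]) (by omega) (by rw [hnum]; exact hpe)
    (by rw [hnum, hQ, hBO, hKO]; exact hRe.le) hR hb
  rw [hnum, hBO] at hfits
  have he9 : e ≤ 9 * (s * k * B) := by
    have h2 : (s + 1) * (2 * k * (B + 1)) ≤ (2 * s) * (2 * k * (2 * B)) :=
      Nat.mul_le_mul (by omega) (Nat.mul_le_mul_left _ (by omega))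
    have h3 : (2 * s) * (2 * k * (2 * B)) = 8 * (s * k * B) := by ring
    have h4 : 1 ≤ s * k * B := Nat.mul_pos (Nat.mul_pos hs1 hkpos) hBpos
    omega
  have hec : (8 * cK P + 1) * e ≤ cTr P * (s * k * B) := by
    unfold cTr
    calc (8 * cK P + 1) * e ≤ (8 * cK P + 1) * (9 * (s * k * B)) := Nat.mul_le_mul_left _ he9
      _ = 9 * (8 * cK P + 1) * (s * k * B) := by ring
  have hplen : (wd π).length ≤ (8 * cK P + 1) * e := by
    have h1 : (wd π).length ≤ 8 * e := length_wd_le hπ0 (hpe.trans_le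
      (Nat.pow_le_pow_right (by norm_num) (Nat.le_succ _)))
    have h3 : 16 ≤ cK P := Nat.le_add_left _ _
    have h2 : 8 * e ≤ (8 * cK P + 1) * e := Nat.mul_le_mul_right _ (by omega)
    exact h1.trans h2
  refine ⟨wd π, w.length + 1 + t, complete hF P hok' hal hacc, hplen.trans hec, ?_, hreads⟩
  intro u hu
  obtain ⟨h1, h2, h3, h4⟩ := hfits u hu
  exact ⟨h1.trans hec, h2.trans hec, h3, h4⟩

/-- A cache of one register is always sufficient, if every load may bring a line into it. -/
theorem served_one (P : List Ins) (w y : List Bool) (t : ℕ) :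
    Served P w y 1 1 ({u ∈ Finset.range t | (ld P (conf P w y u)).isSome}).card t := by
  classical
  obtain ⟨S, hS⟩ : ∃ S : ℕ → Finset ℕ, S = fun u => Nat.rec ∅ (fun v T =>
    match ld P (conf P w y v) with
    | some z => {z}
    | none => T) u := ⟨_, rfl⟩
  have h0 : S 0 = ∅ := by subst hS; rfl
  have h1 : ∀ u z, ld P (conf P w y u) = some z → S (u + 1) = {z} := by
    intro u z hz
    subst hS
    show (match ld P (conf P w y u) with
      | some z => ({z} : Finset ℕ)
      | none => _) = {z}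
    rw [hz]
  have h2 : ∀ u, ld P (conf P w y u) = none → S (u + 1) = S u := by
    intro u hz
    subst hS
    show (match ld P (conf P w y u) with
      | some z => ({z} : Finset ℕ)
      | none => _) = _
    rw [hz]
  refine ⟨S, h0, ?_, ?_, ?_⟩
  · intro u _
    induction u with
    | zero => rw [h0]; simp
    | succ u ih =>
      rcases hld : ld P (conf P w y u) with _ | z
      · rw [h2 u hld]
        exact ih (by omega)
      · rw [h1 u z hld]
        simp
  · intro u _ z hz
    rw [h1 u z hz, Nat.div_one]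
    exact Finset.mem_singleton_self z
  · rw [Finset.card_filter]
    refine Finset.sum_le_sum fun u _ => ?_
    rcases hld : ld P (conf P w y u) with _ | z
    · rw [h2 u hld]
      simp
    · rw [h1 u z hld]
      refine (Finset.card_le_card Finset.sdiff_subset).trans ?_
      simp

theorem ld_lt {P : List Ins} {c : ℕ × (ℕ → ℕ)} {s z : ℕ} (h : ∀ i, c.2 i < 2 ^ s)
    (hz : ld P c = some z) : z < 2 ^ s := by
  unfold ld at hz
  split at hz
  · obtain rfl := Option.some.inj hz
    exact h _
  · exact absurd hz (by simp)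

/-- **The translation of a program without a cache.** -/
theorem translate_time {D : LD} {F : List Bool → List Bool} (hF : D.Is F) (P : List Ins)
    {w y : List Bool} {t s : ℕ} (hle : w.length ≤ (F w).length)
    (hls : Nat.log 2 (F w).length + 1 ≤ s)
    (hacc : AcceptsAt P (F w) y t)
    (hR : ∀ u ≤ t, ∀ i, (conf P (F w) y u).2 i < 2 ^ s) :
    ∃ (p : List Bool) (r : ℕ), (mach D P).AcceptsAt w y p r ∧ p.length ≤ cTr P * s ∧
      (mach D P).Fits w y p r (cTr P * s) (s + 1) (s + 1) ∧
      (mach D P).reads w y p r ≤ 2 * t + 2 := by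
  have hb : ∀ u ≤ t, ∀ z, ld P (conf P (F w) y u) = some z → z < 2 ^ s := by
    intro u hu z hz
    exact ld_lt (hR u hu) hz
  obtain ⟨p, r, h1, h2, h3, h4⟩ := translate hF P (s := s) (b := s) (B := 1) (k := 1) hle hls
    Nat.one_pos Nat.one_pos hacc hR hb (served_one P (F w) y t)
  refine ⟨p, r, h1, by simpa using h2, by simpa using h3, h4.trans ?_⟩
  have h5 : ({u ∈ Finset.range t | (ld P (conf P (F w) y u)).isSome}).card ≤ t := by
    refine (Finset.card_filter_le _ _).trans ?_
    rw [Finset.card_range]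
  omega

end Pool.Agent.Helper81.IC
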